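import Pool.Agent.Lib.MP_1e3e9c_agL.Defs

/-!
# JOB Base: specializations over the field generated by a generic point

PROOFS. `sp_base`: let `p : MvPolynomial ι κ`, `aeval x p = 0`.  All (finitely many) coefficients of `p` have a common denominator: there is `q : MvPolynomial η k` with `aeval t q ≠ 0` and `P : MvPolynomial (ι ⊕ η) k` such that
`aeval t q` times `p` is the image of `P` under `X (inr j) ↦ C (t j)`, `X (inl i) ↦ X i` (induction on `p`, or `MvPolynomial.induction_on`).  `P` vanishes at `(x, t)`, so at `(y, t)`; divide by the image of `aeval t q ≠ 0`.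
`exists_algebra`: `IsFractionRing.lift` of the injective `aeval h`.
`frac_gen`: `IsLocalization.surj` / `IsFractionRing.div_surjective`.
-/

set_option autoImplicit false

namespace Pool.Agent.Lib.MP_1e3e9c_agL

open MvPolynomial

private theorem base_clear {k κ η ι : Type} [Field k] [Field κ] [Algebra k κ] (t : η → κ)
    (hκ : ∀ a : κ, ∃ p q : MvPolynomial η k, aeval t q ≠ 0 ∧ a * aeval t q = aeval t p)
    (p : MvPolynomial ι κ) :
    ∃ (q : MvPolynomial η k) (P : MvPolynomial (ι ⊕ η) k), aeval t q ≠ 0 ∧
      C (aeval t q) * p =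
        aeval (Sum.elim (fun i => (X i : MvPolynomial ι κ)) (fun j => C (t j))) P := by
  have hr : ∀ s : MvPolynomial η k,
      aeval (Sum.elim (fun i => (X i : MvPolynomial ι κ)) (fun j => C (t j)))
        (rename (Sum.inr : η → ι ⊕ η) s) = C (aeval t s) := by
    intro s
    rw [aeval_rename]
    have h1 : (Sum.elim (fun i => (X i : MvPolynomial ι κ)) (fun j => C (t j))) ∘ Sum.inr =
        fun j => algebraMap κ (MvPolynomial ι κ) (t j) := rfl
    rw [h1]
    exact aeval_algebraMap_apply (MvPolynomial ι κ) t s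
  induction p using MvPolynomial.induction_on with
  | C a =>
    obtain ⟨p0, q, hq, h⟩ := hκ a
    refine ⟨q, rename Sum.inr p0, hq, ?_⟩
    rw [hr, ← h, ← C_mul, mul_comm]
  | add p1 p2 h1 h2 =>
    obtain ⟨q1, P1, hq1, e1⟩ := h1
    obtain ⟨q2, P2, hq2, e2⟩ := h2
    refine ⟨q1 * q2, rename Sum.inr q2 * P1 + rename Sum.inr q1 * P2, ?_, ?_⟩
    · rw [map_mul]
      exact mul_ne_zero hq1 hq2
    · simp only [map_add, map_mul, hr]
      rw [← e1, ← e2]
      ring
  | mul_X p1 i h1 =>
    obtain ⟨q1, P1, hq1, e1⟩ := h1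
    refine ⟨q1, P1 * X (Sum.inl i), hq1, ?_⟩
    rw [map_mul, ← e1, aeval_X, Sum.elim_inl, mul_assoc]

theorem sp_base {k κ η ι M M' : Type} [Field k] [Field κ] [Algebra k κ] [Field M] [Algebra k M]
    [Algebra κ M] [IsScalarTower k κ M] [Field M'] [Algebra k M'] [Algebra κ M']
    [IsScalarTower k κ M'] (t : η → κ)
    (hκ : ∀ a : κ, ∃ p q : MvPolynomial η k, aeval t q ≠ 0 ∧ a * aeval t q = aeval t p)
    {x : ι → M} {y : ι → M'}
    (hs : Sp k (Sum.elim x (fun i => algebraMap κ M (t i)))
      (Sum.elim y (fun i => algebraMap κ M' (t i)))) : Sp κ x y := by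
  have key : ∀ {N : Type} [Field N] [Algebra k N] [Algebra κ N] [IsScalarTower k κ N]
      (z : ι → N) (P : MvPolynomial (ι ⊕ η) k),
      aeval z (aeval (Sum.elim (fun i => (X i : MvPolynomial ι κ)) (fun j => C (t j))) P) =
        aeval (Sum.elim z (fun i => algebraMap κ N (t i))) P := by
    intro N _ _ _ _ z P
    have h1 : ((aeval z : MvPolynomial ι κ →ₐ[κ] N).restrictScalars k).comp
        (aeval (Sum.elim (fun i => (X i : MvPolynomial ι κ)) (fun j => C (t j)))) =
        (aeval (Sum.elim z (fun i => algebraMap κ N (t i))) :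
          MvPolynomial (ι ⊕ η) k →ₐ[k] N) := by
      apply MvPolynomial.algHom_ext
      rintro (i | j)
      · simp
      · simp
    exact DFunLike.congr_fun h1 P
  intro p hp
  obtain ⟨q, P, hq, e⟩ := base_clear t hκ p
  have h1 : aeval (Sum.elim x (fun i => algebraMap κ M (t i))) P = 0 := by
    rw [← key x P, ← e, map_mul, hp, mul_zero]
  have h2 := hs P h1
  rw [← key y P, ← e, map_mul, aeval_C] at h2
  rcases mul_eq_zero.1 h2 with h3 | h3
  · exact absurd ((map_eq_zero (algebraMap κ M')).1 h3) hq
  · exact h3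

theorem exists_algebra {k M η : Type} [Field k] [Field M] [Algebra k M] (h : η → M)
    (hh : AlgebraicIndependent k h) :
    ∃ (_ : Algebra (FractionRing (MvPolynomial η k)) M),
      IsScalarTower k (FractionRing (MvPolynomial η k)) M ∧
      ∀ i, algebraMap (FractionRing (MvPolynomial η k)) M
        (algebraMap (MvPolynomial η k) (FractionRing (MvPolynomial η k)) (X i)) = h i := by
  have hinj : Function.Injective ((aeval h : MvPolynomial η k →ₐ[k] M) :
      MvPolynomial η k →+* M) := hh
  let φ : FractionRing (MvPolynomial η k) →+* M := IsFractionRing.lift hinj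
  refine ⟨φ.toAlgebra, ?_, ?_⟩
  · let _ := φ.toAlgebra
    refine IsScalarTower.of_algebraMap_eq fun r => ?_
    have h1 : algebraMap (FractionRing (MvPolynomial η k)) M
        (algebraMap k (FractionRing (MvPolynomial η k)) r) =
        φ (algebraMap (MvPolynomial η k) (FractionRing (MvPolynomial η k)) (C r)) := rfl
    rw [h1]
    have h2 : φ (algebraMap (MvPolynomial η k) (FractionRing (MvPolynomial η k)) (C r)) =
        (aeval h : MvPolynomial η k →ₐ[k] M) (C r) := IsFractionRing.lift_algebraMap hinj _
    rw [h2, aeval_C]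
  · intro i
    have h2 : φ (algebraMap (MvPolynomial η k) (FractionRing (MvPolynomial η k)) (X i)) =
        (aeval h : MvPolynomial η k →ₐ[k] M) (X i) := IsFractionRing.lift_algebraMap hinj _
    show φ (algebraMap (MvPolynomial η k) (FractionRing (MvPolynomial η k)) (X i)) = h i
    rw [h2, aeval_X]

theorem frac_gen {k η : Type} [Field k] (a : FractionRing (MvPolynomial η k)) :
    ∃ p q : MvPolynomial η k,
      aeval (fun i => algebraMap (MvPolynomial η k) (FractionRing (MvPolynomial η k)) (X i)) q ≠ 0 ∧
      a * aeval (fun i => algebraMap (MvPolynomial η k) (FractionRing (MvPolynomial η k)) (X i)) q =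
        aeval (fun i => algebraMap (MvPolynomial η k) (FractionRing (MvPolynomial η k)) (X i)) p := by
  have h0 : ∀ p : MvPolynomial η k,
      aeval (fun i => algebraMap (MvPolynomial η k) (FractionRing (MvPolynomial η k)) (X i)) p =
        algebraMap (MvPolynomial η k) (FractionRing (MvPolynomial η k)) p := by
    intro p
    have h1 : (aeval (fun i => algebraMap (MvPolynomial η k)
        (FractionRing (MvPolynomial η k)) (X i)) : MvPolynomial η k →ₐ[k] _) =
        IsScalarTower.toAlgHom k (MvPolynomial η k) (FractionRing (MvPolynomial η k)) := by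
      apply MvPolynomial.algHom_ext
      intro i
      simp
    rw [h1]
    rfl
  obtain ⟨p, q, hq, e⟩ := IsFractionRing.div_surjective (A := MvPolynomial η k) a
  have hq0 : algebraMap (MvPolynomial η k) (FractionRing (MvPolynomial η k)) q ≠ 0 := by
    intro h
    exact nonZeroDivisors.ne_zero hq
      ((IsFractionRing.injective (MvPolynomial η k) (FractionRing (MvPolynomial η k)))
        (h.trans (map_zero _).symm))
  refine ⟨p, q, ?_, ?_⟩
  · rw [h0]
    exact hq0
  · rw [h0, h0, ← e, div_mul_cancel₀ _ hq0]

end Pool.Agent.Lib.MP_1e3e9c_agL
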