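import Pool.Agent.Lib.MP_1e3e9c_agL.Defs

/-!
# JOB Cf: the coefficients of a form on a line

PROOFS. `cf_eval`: the ring hom `MvPolynomial (Fin N ⊕ Fin N) k → L`, `aeval (Sum.elim u w)`, mapped over `Polynomial`, sends
`C (X (inl i)) + X * C (X (inr i))` to `C (u i) + X * C (w i)`; compare coefficients (`Polynomial.coeff_map`, `MvPolynomial.comp_aeval_apply`/`algHom_ext`).
`cf_expand`: `F` is homogeneous of degree `d`.  For a commutative `k`-algebra `R`: by linearity it is enough to do one monomial of degree `d`, or: the polynomial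
`F(u + X w) = ∑ c_j X ^ j` in `R[X]`; homogeneity gives in `R[a, b]` (two variables) `F(a u + b w) = a ^ d F(u + (b / a) w)`: clear denominators, e.g. prove
for monomials: `∏_i (a u_i + b w_i) ^ (m_i)` with `∑ m_i = d` equals `∑_j a ^ (d - j) b ^ j coeff_j (∏_i (u_i + X w_i) ^ (m_i))` (homogenisation is multiplicative:
for polynomials `P`, `Q` of degree at most `e`, `e'` the homogenisation of degree `e + e'` of `P Q` is the product of the homogenisations of degree `e`, `e'`;
induction over the product).  Use `MvPolynomial.as_sum`/`aeval_def`/`eval₂_eq`.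
`cf_gt`: natDegree of `F(U + X W)` is at most `d`.
`cf_stable`: by `cf_expand` over the ring `L[X]`: `F(α u + β w) = 0` for all `α β : L[X]`; now `(a u + b w) + X (c u + e w) = (a + c X) u + (b + e X) w`; use `cf_eval`.
`cf_borel`: `ν u + X (lam w + μ u) = (ν + μ X) u + (lam X) w`, so by `cf_expand` over `L[X]` (`cf_eval`) `F(ν u + X (lam w + μ u)) = ∑_(j ≤ d) c_j (ν + μ X) ^ (d - j) (lam X) ^ j`,
`c_j = 0` for `j < m`: the coefficients of `X ^ i`, `i < m`, are `0`, that of `X ^ m` is `c_m ν ^ (d - m) lam ^ m`.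
`cf_zero_line`: `F` vanishes on the line. `cf_zero_of_line` needs an infinite field: the polynomial `F(u + X w)` has infinitely many zeros.
-/

set_option autoImplicit false

namespace Pool.Agent.Lib.MP_1e3e9c_agL

open MvPolynomial

theorem cf_eval {k R : Type} [Field k] [CommRing R] [Algebra k R] {N : ℕ} (F : MvPolynomial (Fin N) k)
    (u w : Fin N → R) (j : ℕ) :
    aeval (Sum.elim u w) (cf F j) =
      (aeval (fun i => Polynomial.C (u i) + Polynomial.X * Polynomial.C (w i) :
        Fin N → Polynomial R) F).coeff j := by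
  have h : (Polynomial.mapAlgHom (aeval (Sum.elim u w) : MvPolynomial (Fin N ⊕ Fin N) k →ₐ[k] R)).comp
      (aeval (fun i => Polynomial.C (X (Sum.inl i)) + Polynomial.X * Polynomial.C (X (Sum.inr i)) :
        Fin N → Polynomial (MvPolynomial (Fin N ⊕ Fin N) k))) =
      aeval (fun i => Polynomial.C (u i) + Polynomial.X * Polynomial.C (w i) : Fin N → Polynomial R) := by
    apply MvPolynomial.algHom_ext
    intro i
    simp
  rw [← h, AlgHom.comp_apply, Polynomial.coe_mapAlgHom, Polynomial.coeff_map]
  rfl

theorem cf_expand {k R : Type} [Field k] [CommRing R] [Algebra k R] {N d : ℕ}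
    {F : MvPolynomial (Fin N) k} (hF : F.IsHomogeneous d) (u w : Fin N → R) (a b : R) :
    aeval (fun i => a * u i + b * w i) F =
      ∑ j ∈ Finset.range (d + 1), aeval (Sum.elim u w) (cf F j) * a ^ (d - j) * b ^ j := by
  obtain ⟨f, hf⟩ : ∃ f : Fin N → MvPolynomial (Fin 2) R, f = fun i => C (u i) * X 1 + C (w i) * X 0 := ⟨_, rfl⟩
  have hf1 : ∀ i, (f i).IsHomogeneous 1 := by
    intro i
    rw [hf]
    exact ((isHomogeneous_C_mul_X _ _)).add (isHomogeneous_C_mul_X _ _)
  have hq : (aeval f F).IsHomogeneous d := by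
    have h1 := hF.aeval f hf1
    rwa [one_mul] at h1
  have hpq : aeval ![Polynomial.X, 1] (aeval f F) =
      aeval (fun i => Polynomial.C (u i) + Polynomial.X * Polynomial.C (w i) : Fin N → Polynomial R) F := by
    have h1 : ((aeval ![Polynomial.X, 1] : MvPolynomial (Fin 2) R →ₐ[R] Polynomial R).restrictScalars k).comp
        (aeval f : MvPolynomial (Fin N) k →ₐ[k] MvPolynomial (Fin 2) R) =
        aeval (fun i => Polynomial.C (u i) + Polynomial.X * Polynomial.C (w i) : Fin N → Polynomial R) := by
      apply MvPolynomial.algHom_ext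
      intro i
      simp [hf, Polynomial.C_eq_algebraMap, mul_comm]
    rw [← h1]
    rfl
  have h2 := Polynomial.homogenize_eq_of_isHomogeneous hq hpq
  have h3 : aeval ![b, a] (aeval f F) = aeval (fun i => a * u i + b * w i) F := by
    have h1 : ((aeval ![b, a] : MvPolynomial (Fin 2) R →ₐ[R] R).restrictScalars k).comp
        (aeval f : MvPolynomial (Fin N) k →ₐ[k] MvPolynomial (Fin 2) R) =
        aeval (fun i => a * u i + b * w i) := by
      apply MvPolynomial.algHom_ext
      intro i
      simp [hf, mul_comm]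
    rw [← h1]
    rfl
  rw [← h3, ← h2, Polynomial.homogenize, map_sum, Finset.Nat.sum_antidiagonal_eq_sum_range_succ_mk]
  refine Finset.sum_congr rfl fun j _ => ?_
  rw [cf_eval, aeval_monomial, Finsupp.prod_fintype _ _ (fun i => pow_zero _), Fin.prod_univ_two]
  simp
  ring

theorem cf_gt {k : Type} [Field k] {N d : ℕ} {F : MvPolynomial (Fin N) k} (hF : F.IsHomogeneous d)
    {j : ℕ} (hj : d < j) : cf F j = 0 := by
  unfold cf
  apply Polynomial.coeff_eq_zero_of_natDegree_lt
  refine lt_of_le_of_lt ?_ hj
  have h1 := MvPolynomial.aeval_natDegree_le (m := d) (n := 1)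
    (MvPolynomial.map (algebraMap k (MvPolynomial (Fin N ⊕ Fin N) k)) F)
    (hF.map _).totalDegree_le
    (fun i => Polynomial.C (X (Sum.inl i)) + Polynomial.X * Polynomial.C (X (Sum.inr i)))
    (fun i => by
      refine (Polynomial.natDegree_add_le _ _).trans (max_le ?_ ?_)
      · rw [Polynomial.natDegree_C]
        exact Nat.zero_le _
      · refine (Polynomial.natDegree_mul_C_le _ _).trans Polynomial.natDegree_X_le)
  rw [aeval_map_algebraMap, mul_one] at h1
  exact h1

theorem cf_zero_line {k R : Type} [Field k] [CommRing R] [Algebra k R] {N d : ℕ}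
    {F : MvPolynomial (Fin N) k} (hF : F.IsHomogeneous d) (u w : Fin N → R)
    (h : ∀ j, aeval (Sum.elim u w) (cf F j) = 0) (a b : R) :
    aeval (fun i => a * u i + b * w i) F = 0 := by
  rw [cf_expand hF]
  refine Finset.sum_eq_zero fun j _ => ?_
  rw [h, zero_mul, zero_mul]

theorem Cf_lift {k L : Type} [Field k] [Field L] [Algebra k L] {N : ℕ} (u w : Fin N → L)
    (p : MvPolynomial (Fin N ⊕ Fin N) k) :
    aeval (Sum.elim (fun i => Polynomial.C (u i)) (fun i => Polynomial.C (w i))) p =
      Polynomial.C (aeval (Sum.elim u w) p) := by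
  have h1 : (Sum.elim (fun i => Polynomial.C (u i)) (fun i => Polynomial.C (w i)) :
      Fin N ⊕ Fin N → Polynomial L) = algebraMap L (Polynomial L) ∘ Sum.elim u w := by
    funext i
    rcases i with i | i <;> rfl
  rw [h1, aeval_algebraMap_apply]
  rfl

theorem cf_stable {k L : Type} [Field k] [Field L] [Algebra k L] {N d : ℕ}
    {F : MvPolynomial (Fin N) k} (hF : F.IsHomogeneous d) (u w : Fin N → L) (a b c e : L)
    (h : ∀ j, aeval (Sum.elim u w) (cf F j) = 0) (j : ℕ) :
    aeval (Sum.elim (a • u + b • w) (c • u + e • w)) (cf F j) = 0 := by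
  have h0 : ∀ j, aeval (Sum.elim (fun i => Polynomial.C (u i)) (fun i => Polynomial.C (w i)))
      (cf F j) = 0 := by
    intro j
    rw [Cf_lift, h j, map_zero]
  have h1 := cf_zero_line hF (fun i => Polynomial.C (u i)) (fun i => Polynomial.C (w i)) h0
    (Polynomial.C a + Polynomial.X * Polynomial.C c) (Polynomial.C b + Polynomial.X * Polynomial.C e)
  rw [cf_eval]
  have h2 : (fun i => Polynomial.C ((a • u + b • w) i) + Polynomial.X * Polynomial.C ((c • u + e • w) i) :
      Fin N → Polynomial L) = fun i => (Polynomial.C a + Polynomial.X * Polynomial.C c) *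
        Polynomial.C (u i) + (Polynomial.C b + Polynomial.X * Polynomial.C e) * Polynomial.C (w i) := by
    funext i
    simp only [Pi.add_apply, Pi.smul_apply, smul_eq_mul, map_add, map_mul]
    ring
  rw [h2, h1, Polynomial.coeff_zero]

theorem cf_borel {k L : Type} [Field k] [Field L] [Algebra k L] {N d : ℕ}
    {F : MvPolynomial (Fin N) k} (hF : F.IsHomogeneous d) (u w : Fin N → L) (ν lam μ : L) {m : ℕ}
    (hm : m ≤ d) (h : ∀ j < m, aeval (Sum.elim u w) (cf F j) = 0) :
    (∀ j < m, aeval (Sum.elim (ν • u) (lam • w + μ • u)) (cf F j) = 0) ∧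
      aeval (Sum.elim (ν • u) (lam • w + μ • u)) (cf F m) =
        ν ^ (d - m) * lam ^ m * aeval (Sum.elim u w) (cf F m) := by
  have h1 := cf_expand hF (fun i => Polynomial.C (u i)) (fun i => Polynomial.C (w i))
    (Polynomial.C ν + Polynomial.C μ * Polynomial.X) (Polynomial.C lam * Polynomial.X)
  have h2 : (fun i => Polynomial.C ((ν • u) i) + Polynomial.X * Polynomial.C ((lam • w + μ • u) i) :
      Fin N → Polynomial L) = fun i => (Polynomial.C ν + Polynomial.C μ * Polynomial.X) *
        Polynomial.C (u i) + (Polynomial.C lam * Polynomial.X) * Polynomial.C (w i) := by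
    funext i
    simp only [Pi.add_apply, Pi.smul_apply, smul_eq_mul, map_add, map_mul]
    ring
  have h3 : ∀ i, aeval (Sum.elim (ν • u) (lam • w + μ • u)) (cf F i) =
      ∑ j ∈ Finset.range (d + 1), if j ≤ i then (Polynomial.C (aeval (Sum.elim u w) (cf F j)) *
        (Polynomial.C ν + Polynomial.C μ * Polynomial.X) ^ (d - j) *
          Polynomial.C (lam ^ j)).coeff (i - j) else 0 := by
    intro i
    rw [cf_eval, h2, h1, Polynomial.finsetSum_coeff]
    refine Finset.sum_congr rfl fun j _ => ?_
    rw [Cf_lift, mul_pow, ← Polynomial.C_pow, ← mul_assoc, Polynomial.coeff_mul_X_pow']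
  refine ⟨fun i hi => ?_, ?_⟩
  · rw [h3]
    refine Finset.sum_eq_zero fun j _ => ?_
    by_cases hj : j ≤ i
    · rw [if_pos hj, h j (by omega), Polynomial.C_0, zero_mul, zero_mul, Polynomial.coeff_zero]
    · rw [if_neg hj]
  · rw [h3, Finset.sum_eq_single m]
    · rw [if_pos le_rfl, Nat.sub_self, Polynomial.mul_coeff_zero, Polynomial.mul_coeff_zero,
        Polynomial.coeff_C_zero, Polynomial.coeff_C_zero, Polynomial.coeff_zero_eq_eval_zero]
      simp only [Polynomial.eval_pow, Polynomial.eval_add, Polynomial.eval_C, Polynomial.eval_mul,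
        Polynomial.eval_X, mul_zero, add_zero]
      ring
    · intro j _ hjm
      rcases lt_or_gt_of_ne hjm with hlt | hgt
      · rw [if_pos hlt.le, h j hlt, Polynomial.C_0, zero_mul, zero_mul, Polynomial.coeff_zero]
      · rw [if_neg (by omega)]
    · intro hm'
      exact absurd (Finset.mem_range.2 (by omega)) hm'

theorem cf_zero_of_line {k L : Type} [Field k] [Field L] [Infinite L] [Algebra k L] {N : ℕ}
    (F : MvPolynomial (Fin N) k) (u w : Fin N → L)
    (h : ∀ b : L, aeval (fun i => u i + b * w i) F = 0) (j : ℕ) :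
    aeval (Sum.elim u w) (cf F j) = 0 := by
  have h1 : aeval (fun i => Polynomial.C (u i) + Polynomial.X * Polynomial.C (w i) :
      Fin N → Polynomial L) F = 0 := by
    apply Polynomial.funext
    intro b
    have h2 : ((Polynomial.aeval b : Polynomial L →ₐ[L] L).restrictScalars k).comp
        (aeval (fun i => Polynomial.C (u i) + Polynomial.X * Polynomial.C (w i) : Fin N → Polynomial L)) =
        aeval (fun i => u i + b * w i) := by
      apply MvPolynomial.algHom_ext
      intro i
      simp
      ring
    have h3 := DFunLike.congr_fun h2 F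
    rw [h b] at h3
    rw [Polynomial.eval_zero, ← h3, AlgHom.comp_apply]
    exact (Polynomial.coe_aeval_eq_eval b ▸ rfl)
  rw [cf_eval, h1, Polynomial.coeff_zero]

end Pool.Agent.Lib.MP_1e3e9c_agL
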