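import Mathlib

/-!
# JOB Chain: the Krull dimension of a closed subset

PROOF.  `topologicalKrullDim F = Order.krullDim (TopologicalSpace.IrreducibleCloseds F)`; `Order.le_krullDim_iff` (`↑n ≤ krullDim` iff there is an `LTSeries` of length `n`).  An irreducible closed subset of the subspace `F` (closed in `X`) is mapped by `Subtype.val` to a subset `A ⊆ F` of `X`,
closed (`IsClosed.isClosedEmbedding_subtypeVal`, `isClosedMap`) and irreducible (`IsIrreducible.image`); conversely the preimage of a closed irreducible `A ⊆ F` (`IsIrreducible` of the preimage: `Subtype.preirreducible`, `IsIrreducible` in the subspace iff in `X`).  Both maps are strictly monotone.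
-/

set_option autoImplicit false

namespace Pool.Agent.Lib.MP_1e3e9c_agL

theorem Chain_pre {X : Type} [TopologicalSpace X] {F A : Set X} (hA : IsIrreducible A)
    (hAF : A ⊆ F) : IsIrreducible ((Subtype.val : F → X) ⁻¹' A) := by
  obtain ⟨⟨a, ha⟩, hp⟩ := hA
  refine ⟨⟨⟨a, hAF ha⟩, ha⟩, ?_⟩
  rintro u v hu hv ⟨x, hxA, hxu⟩ ⟨y, hyA, hyv⟩
  obtain ⟨U, hU, rfl⟩ := isOpen_induced_iff.1 hu
  obtain ⟨V, hV, rfl⟩ := isOpen_induced_iff.1 hv
  obtain ⟨z, hzA, hzU, hzV⟩ := hp U V hU hV ⟨x, hxA, hxu⟩ ⟨y, hyA, hyv⟩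
  exact ⟨⟨z, hAF hzA⟩, hzA, hzU, hzV⟩

theorem chain_iff {X : Type} [TopologicalSpace X] (F : Set X) (hF : IsClosed F) (n : ℕ) :
    (n : WithBot ℕ∞) ≤ topologicalKrullDim F ↔
      ∃ A : Fin (n + 1) → Set X, StrictMono A ∧
        ∀ i, IsClosed (A i) ∧ IsIrreducible (A i) ∧ A i ⊆ F := by
  unfold topologicalKrullDim
  rw [Order.le_krullDim_iff]
  constructor
  · rintro ⟨l, rfl⟩
    refine ⟨fun i => (Subtype.val : F → X) '' (l i : Set F), ?_, fun i => ⟨?_, ?_, ?_⟩⟩
    · intro i j hij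
      have h1 : l i < l j := l.strictMono hij
      have h2 : (l i : Set F) ⊂ (l j : Set F) := h1
      exact Subtype.val_injective.image_strictMono h2
    · exact hF.isClosedEmbedding_subtypeVal.isClosedMap _ (l i).isClosed
    · exact (l i).isIrreducible.image _ continuous_subtype_val.continuousOn
    · rintro x ⟨y, _, rfl⟩
      exact y.2
  · rintro ⟨A, hA, h⟩
    refine ⟨LTSeries.mk n (fun i => ⟨(Subtype.val : F → X) ⁻¹' A i, Chain_pre (h i).2.1 (h i).2.2,
      (h i).1.preimage continuous_subtype_val⟩) ?_, rfl⟩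
    intro i j hij
    have h1 : A i ⊂ A j := hA hij
    show ((Subtype.val : F → X) ⁻¹' A i) ⊂ ((Subtype.val : F → X) ⁻¹' A j)
    rw [Set.ssubset_iff_exists] at h1 ⊢
    obtain ⟨h2, x, hx, hx'⟩ := h1
    exact ⟨Set.preimage_mono h2, ⟨x, (h j).2.2 hx⟩, hx, hx'⟩

end Pool.Agent.Lib.MP_1e3e9c_agL
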