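import Pool.Agent.Lib.MP_1e3e9c_agL.Defs
import Pool.Agent.Lib.MP_1e3e9c_ag.RC.Val

/-!
# JOB Const: a regular function on a complete family of pointed lines that vanishes somewhere is zero

PROOF of `const_zero`.  Put `z = (u, w)`, suppose `A(z) ≠ 0`; `C(z) ≠ 0` by `hC0` for `z` itself; `g = A(z) / C(z) ≠ 0`.
(1) `g` is transcendental over `κ`: otherwise let `m` be its minimal polynomial, `n` the degree; `m_0 ≠ 0` (`minpoly.coeff_zero_ne_zero`).  `∑ m_i g ^ i = 0`, times `C(z) ^ n`: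
the polynomial `∑_(i ≤ n) m_i A ^ i C ^ (n - i)` vanishes at `z`, hence at `(u1, w1)` (`hs`), where it is `m_0 C(u1, w1) ^ n ≠ 0` because `A(u1, w1) = 0`, and `C(u1, w1) ≠ 0` by `hC0`.
(2) So `g⁻¹` is transcendental; `RC.exists_val` gives a valuation ring `V ⊇ κ` of `L` with `g⁻¹ ∈ V.nonunits`, so `g ∉ V`.
(3) Normalise: `c` with `|u c|` maximal (`u ≠ 0`), `ν = (u c)⁻¹`; `w' = w - (w c / u c) u`, `w' ≠ 0` (`Ind`), `c'` with `|w' c'|` maximal, `lam = (w' c')⁻¹`, `μ = - lam w c / u c`.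
Then `u₂ = ν u`, `w₂ = lam w + μ u` have all their coordinates in `V`, `u₂ c = 1`, `w₂ c = 0`, `w₂ c' = 1`.
(4) Residue field `ρ` of `V`, a `κ`-algebra (`κ → V → ρ`).  `ū`, `w̄` = reductions of `u₂`, `w₂`; they are independent (minor `c`, `c'` is `1`).  `Sp κ z (ū, w̄)`: if `p(z) = 0` then
`p(u₂, w₂) = 0` in `L` by `hB`, so in `V`, so its reduction `p(ū, w̄)` is `0`.  By `hC0` `C(ū, w̄) ≠ 0`, so `C(u₂, w₂)` is a unit of `V`, and `A(u₂, w₂) ∈ V`;
`A(u₂, w₂) / C(u₂, w₂) = A(z) / C(z) = g` by `hA`, `hC`; so `g ∈ V`, contradiction.  (For the reduction of polynomial values see `reduceL` in `MP_1e3e9c_ag/LN/Red.lean` on main: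
`MvPolynomial.aeval` over `V` as a `κ`-algebra, `map_aeval`.)
-/

set_option autoImplicit false

namespace Pool.Agent.Lib.MP_1e3e9c_agL

open MvPolynomial

theorem const_zero {κ L L1 : Type} [Field κ] [Field L] [Algebra κ L] [Field L1] [Algebra κ L1]
    {N : ℕ} (u w : Fin N → L) (hi : Ind u w)
    (hB : ∀ ν lam μ : L, ν ≠ 0 → lam ≠ 0 →
      Sp κ (Sum.elim u w) (Sum.elim (ν • u) (lam • w + μ • u)))
    (A C : MvPolynomial (Fin N ⊕ Fin N) κ) (a b : ℕ)
    (hA : ∀ ν lam μ : L, ν ≠ 0 → lam ≠ 0 → aeval (Sum.elim (ν • u) (lam • w + μ • u)) A =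
      ν ^ a * lam ^ b * aeval (Sum.elim u w) A)
    (hC : ∀ ν lam μ : L, ν ≠ 0 → lam ≠ 0 → aeval (Sum.elim (ν • u) (lam • w + μ • u)) C =
      ν ^ a * lam ^ b * aeval (Sum.elim u w) C)
    (hC0 : ∀ (M : Type) [Field M] [Algebra κ M] (u' w' : Fin N → M), Ind u' w' →
      Sp κ (Sum.elim u w) (Sum.elim u' w') → aeval (Sum.elim u' w') C ≠ 0)
    (u1 w1 : Fin N → L1) (h1 : Ind u1 w1) (hs : Sp κ (Sum.elim u w) (Sum.elim u1 w1))
    (hA1 : aeval (Sum.elim u1 w1) A = 0) : aeval (Sum.elim u w) A = 0 := by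
  classical
  by_contra hA0
  have hCz : aeval (Sum.elim u w) C ≠ 0 := hC0 L u w hi (Sp.refl _)
  obtain ⟨g, hg⟩ : ∃ g : L, g = aeval (Sum.elim u w) A / aeval (Sum.elim u w) C := ⟨_, rfl⟩
  have hg0 : g ≠ 0 := by rw [hg]; exact div_ne_zero hA0 hCz
  -- (1) `g` is transcendental
  have htr : Transcendental κ g := by
    intro halg
    have hint : IsIntegral κ g := halg.isIntegral
    have hm0 : (minpoly κ g).coeff 0 ≠ 0 := minpoly.coeff_zero_ne_zero hint hg0
    obtain ⟨m, hm⟩ : ∃ m : Polynomial κ, m = minpoly κ g := ⟨_, rfl⟩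
    rw [← hm] at hm0
    have hmg : Polynomial.aeval g m = 0 := by rw [hm]; exact minpoly.aeval κ g
    obtain ⟨Q, hQ⟩ : ∃ Q : MvPolynomial (Fin N ⊕ Fin N) κ, Q =
        ∑ i ∈ Finset.range (m.natDegree + 1),
          MvPolynomial.C (m.coeff i) * A ^ i * C ^ (m.natDegree - i) := ⟨_, rfl⟩
    have hQz : aeval (Sum.elim u w) Q = 0 := by
      have h2 : aeval (Sum.elim u w) Q =
          (aeval (Sum.elim u w) C) ^ m.natDegree * Polynomial.aeval g m := by
        rw [hQ, map_sum, Polynomial.aeval_eq_sum_range, Finset.mul_sum]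
        refine Finset.sum_congr rfl fun i hi' => ?_
        have hi2 : i ≤ m.natDegree := Nat.lt_succ_iff.1 (Finset.mem_range.1 hi')
        rw [map_mul, map_mul, map_pow, map_pow, aeval_C, Algebra.smul_def, hg, div_pow]
        have h3 : (aeval (Sum.elim u w) C) ^ m.natDegree =
            (aeval (Sum.elim u w) C) ^ i * (aeval (Sum.elim u w) C) ^ (m.natDegree - i) := by
          rw [← pow_add, Nat.add_sub_cancel' hi2]
        rw [h3]
        have h4 : (aeval (Sum.elim u w) C) ^ i ≠ 0 := pow_ne_zero _ hCz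
        field_simp
      rw [h2, hmg, mul_zero]
    have hQ1 := hs Q hQz
    have hQ2 : aeval (Sum.elim u1 w1) Q =
        algebraMap κ L1 (m.coeff 0) * (aeval (Sum.elim u1 w1) C) ^ m.natDegree := by
      rw [hQ, map_sum, Finset.sum_eq_single 0]
      · rw [map_mul, map_mul, map_pow, map_pow, aeval_C, pow_zero, mul_one, Nat.sub_zero]
      · intro i _ hi0
        rw [map_mul, map_mul, map_pow, hA1, zero_pow hi0, mul_zero, zero_mul]
      · intro h0
        exact absurd (Finset.mem_range.2 (Nat.succ_pos _)) h0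
    rw [hQ2] at hQ1
    have hC1 : aeval (Sum.elim u1 w1) C ≠ 0 := hC0 L1 u1 w1 h1 hs
    rcases mul_eq_zero.1 hQ1 with h2 | h2
    · exact hm0 ((map_eq_zero _).1 h2)
    · exact pow_ne_zero _ hC1 h2
  -- (2) the valuation ring
  have htr' : Transcendental κ g⁻¹ := by
    intro h2
    apply htr
    have h3 := h2.inv
    rwa [inv_inv] at h3
  obtain ⟨V, hVk, hVg⟩ := Pool.Agent.Lib.MP_1e3e9c_ag.RC.exists_val g⁻¹ htr'
  have hgV : g ∉ V := by
    intro h2
    have h3 : V.valuation g⁻¹ < 1 := V.mem_nonunits_iff.1 hVg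
    have h4 : V.valuation g ≤ 1 := (V.valuation_le_one_iff g).2 h2
    have h5 : V.valuation g⁻¹ * V.valuation g = 1 := by
      rw [← map_mul, inv_mul_cancel₀ hg0, map_one]
    have h6 : V.valuation g⁻¹ * V.valuation g < 1 := by
      calc V.valuation g⁻¹ * V.valuation g ≤ V.valuation g⁻¹ * 1 := by gcongr
        _ = V.valuation g⁻¹ := mul_one _
        _ < 1 := h3
    exact absurd h5 h6.ne
  -- (3) normalisation
  have hdiv : ∀ x y : L, y ≠ 0 → V.valuation x ≤ V.valuation y → x / y ∈ V := by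
    intro x y hy hxy
    rw [← V.valuation_le_one_iff, map_div₀]
    have hy' : V.valuation y ≠ 0 := (map_ne_zero V.valuation).2 hy
    exact (div_le_one₀ (zero_lt_iff.2 hy')).2 hxy
  obtain ⟨p, q, hpq⟩ := hi
  obtain ⟨c, -, hc⟩ := Finset.exists_max_image Finset.univ (fun i => V.valuation (u i))
    ⟨p, Finset.mem_univ p⟩
  have huc : u c ≠ 0 := by
    intro h0
    have h2 : ∀ i, u i = 0 := by
      intro i
      have h3 := hc i (Finset.mem_univ i)
      rw [h0, map_zero, le_zero_iff, map_eq_zero] at h3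
      exact h3
    apply hpq
    rw [h2 p, h2 q, zero_mul, zero_mul, sub_zero]
  obtain ⟨w', hw'⟩ : ∃ w' : Fin N → L, ∀ i, w' i = w i - w c / u c * u i := ⟨_, fun _ => rfl⟩
  obtain ⟨c', -, hc'⟩ := Finset.exists_max_image Finset.univ (fun i => V.valuation (w' i))
    ⟨p, Finset.mem_univ p⟩
  have hwc' : w' c' ≠ 0 := by
    intro h0
    have h2 : ∀ i, w i = w c / u c * u i := by
      intro i
      have h3 := hc' i (Finset.mem_univ i)
      rw [h0, map_zero, le_zero_iff, map_eq_zero, hw', sub_eq_zero] at h3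
      exact h3
    apply hpq
    rw [h2 p, h2 q]
    ring
  obtain ⟨ν, hν⟩ : ∃ ν : L, ν = (u c)⁻¹ := ⟨_, rfl⟩
  obtain ⟨lam, hlam⟩ : ∃ lam : L, lam = (w' c')⁻¹ := ⟨_, rfl⟩
  obtain ⟨μ, hμ⟩ : ∃ μ : L, μ = - (lam * (w c / u c)) := ⟨_, rfl⟩
  have hν0 : ν ≠ 0 := by rw [hν]; exact inv_ne_zero huc
  have hlam0 : lam ≠ 0 := by rw [hlam]; exact inv_ne_zero hwc'
  have hU : ∀ i, ∃ x : V, (x : L) = ν * u i := by
    intro i
    refine ⟨⟨u i / u c, hdiv _ _ huc (hc i (Finset.mem_univ i))⟩, ?_⟩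
    show u i / u c = ν * u i
    rw [hν, div_eq_inv_mul]
  have hW : ∀ i, ∃ x : V, (x : L) = lam * w i + μ * u i := by
    intro i
    refine ⟨⟨w' i / w' c', hdiv _ _ hwc' (hc' i (Finset.mem_univ i))⟩, ?_⟩
    show w' i / w' c' = lam * w i + μ * u i
    rw [hμ, hlam, div_eq_inv_mul, hw' i]
    ring
  choose U hU using hU
  choose W hW using hW
  -- (4) reduction
  obtain ⟨ψ, hψ⟩ : ∃ ψ : κ →+* V, ∀ x, ((ψ x : V) : L) = algebraMap κ L x :=
    ⟨(algebraMap κ L).codRestrict V hVk, fun _ => rfl⟩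
  have hL : ∀ P : MvPolynomial (Fin N ⊕ Fin N) κ,
      aeval (Sum.elim (ν • u) (lam • w + μ • u)) P =
        ((eval₂ ψ (Sum.elim U W) P : V) : L) := by
    intro P
    have h2 : ((eval₂ ψ (Sum.elim U W) P : V) : L) = V.subtype (eval₂ ψ (Sum.elim U W) P) := rfl
    rw [h2, eval₂_comp_left, aeval_def]
    have h3 : V.subtype.comp ψ = algebraMap κ L := RingHom.ext fun x => hψ x
    have h4 : V.subtype ∘ (Sum.elim U W) = Sum.elim (ν • u) (lam • w + μ • u) := by
      funext i
      rcases i with i | i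
      · exact hU i
      · exact hW i
    rw [h3, h4]
  let _ : Algebra κ (IsLocalRing.ResidueField V) := ((IsLocalRing.residue V).comp ψ).toAlgebra
  have hR : ∀ P : MvPolynomial (Fin N ⊕ Fin N) κ,
      aeval (Sum.elim (fun i => IsLocalRing.residue V (U i))
        (fun i => IsLocalRing.residue V (W i))) P =
        IsLocalRing.residue V (eval₂ ψ (Sum.elim U W) P) := by
    intro P
    rw [eval₂_comp_left, aeval_def]
    have h4 : (IsLocalRing.residue V : V → IsLocalRing.ResidueField V) ∘ (Sum.elim U W) =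
        Sum.elim (fun i => IsLocalRing.residue V (U i)) (fun i => IsLocalRing.residue V (W i)) := by
      funext i
      rcases i with i | i <;> rfl
    rw [h4]
    rfl
  have hUc : U c = 1 := by
    apply Subtype.ext
    rw [hU c, hν, inv_mul_cancel₀ huc]
    rfl
  have hWc : W c = 0 := by
    apply Subtype.ext
    rw [hW c, hμ]
    show _ = (0 : L)
    field_simp
    ring
  have hWc' : W c' = 1 := by
    apply Subtype.ext
    have h2 : lam * w c' + μ * u c' = lam * w' c' := by rw [hμ, hw' c']; ring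
    rw [hW c', h2, hlam, inv_mul_cancel₀ hwc']
    rfl
  have hind : Ind (fun i => IsLocalRing.residue V (U i)) (fun i => IsLocalRing.residue V (W i)) := by
    refine ⟨c, c', ?_⟩
    show IsLocalRing.residue V (U c) * IsLocalRing.residue V (W c') -
      IsLocalRing.residue V (U c') * IsLocalRing.residue V (W c) ≠ 0
    rw [hUc, hWc, hWc', map_one, map_zero, mul_one, mul_zero, sub_zero]
    exact one_ne_zero
  have hsp : Sp κ (Sum.elim u w) (Sum.elim (fun i => IsLocalRing.residue V (U i))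
      (fun i => IsLocalRing.residue V (W i))) := by
    intro P hP
    have h2 := hB ν lam μ hν0 hlam0 P hP
    rw [hL P] at h2
    have h3 : eval₂ ψ (Sum.elim U W) P = (0 : V) := Subtype.ext h2
    rw [hR P, h3, map_zero]
  have hCr := hC0 (IsLocalRing.ResidueField V) _ _ hind hsp
  rw [hR C] at hCr
  have hunit : IsUnit (eval₂ ψ (Sum.elim U W) C : V) := by
    by_contra h2
    exact hCr ((IsLocalRing.residue_eq_zero_iff _).2 ((IsLocalRing.mem_maximalIdeal _).2 h2))
  obtain ⟨e, he⟩ := hunit.exists_right_inv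
  apply hgV
  have h2 : g = ((eval₂ ψ (Sum.elim U W) A * e : V) : L) := by
    have h3 : ((eval₂ ψ (Sum.elim U W) C : V) : L) * (e : L) = 1 := by
      have h4 := congrArg (Subtype.val : V → L) he
      exact h4
    have h5 : ((eval₂ ψ (Sum.elim U W) A * e : V) : L) =
      ((eval₂ ψ (Sum.elim U W) A : V) : L) * (e : L) := rfl
    rw [h5]
    rw [← hL, hC ν lam μ hν0 hlam0] at h3
    rw [← hL, hA ν lam μ hν0 hlam0, hg]
    have h6 : aeval (Sum.elim u w) A / aeval (Sum.elim u w) C =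
        aeval (Sum.elim u w) A / aeval (Sum.elim u w) C *
          (ν ^ a * lam ^ b * (aeval (Sum.elim u w)) C * (e : L)) := by rw [h3, mul_one]
    rw [h6]
    field_simp
  rw [h2]
  exact Subtype.mem _

end Pool.Agent.Lib.MP_1e3e9c_agL
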