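import Mathlib

/-!
# Families of lines

A line of the projective space `P^(N-1)` over `k` is a two-dimensional subspace of `k^N`.  The set of all lines
carries the Zariski topology: a set `A` of lines is closed if there is a set `S` of polynomials in the coordinates
of two vectors `u`, `w` such that the line spanned by `u` and `w` belongs to `A` if and only if all `p` in `S` vanish
at `(u, w)`.
-/

set_option autoImplicit false

namespace Pool.Agent.Lib.MP_1e3e9c_agL

open MvPolynomial

/-- a line of `P^(N-1)`: a two-dimensional subspace of `k^N` -/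
@[ext] structure Line (k : Type) [Field k] (N : ℕ) where
  /-- the subspace -/
  V : Submodule k (Fin N → k)
  two : Module.finrank k V = 2

/-- `A` is Zariski closed. -/
def IsZariskiClosed {k : Type} [Field k] {N : ℕ} (A : Set (Line k N)) : Prop :=
  ∃ S : Set (MvPolynomial (Fin N ⊕ Fin N) k), ∀ (l : Line k N) (u w : Fin N → k),
    l.V = Submodule.span k {u, w} → (l ∈ A ↔ ∀ p ∈ S, eval (Sum.elim u w) p = 0)

theorem isZariskiClosed_empty {k : Type} [Field k] {N : ℕ} :
    IsZariskiClosed (∅ : Set (Line k N)) := by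
  refine ⟨{1}, fun l u w _ => ?_⟩
  simp

theorem isZariskiClosed_sInter {k : Type} [Field k] {N : ℕ} (T : Set (Set (Line k N)))
    (hT : ∀ A ∈ T, IsZariskiClosed A) : IsZariskiClosed (⋂₀ T) := by
  choose! S hS using hT
  refine ⟨⋃ A ∈ T, S A, fun l u w h => ?_⟩
  simp only [Set.mem_sInter, Set.mem_iUnion, exists_prop]
  constructor
  · rintro hl p ⟨A, hA, hp⟩
    exact (hS A hA l u w h).1 (hl A hA) p hp
  · intro hl A hA
    exact (hS A hA l u w h).2 fun p hp => hl p ⟨A, hA, hp⟩

theorem isZariskiClosed_union {k : Type} [Field k] {N : ℕ} (A B : Set (Line k N))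
    (hA : IsZariskiClosed A) (hB : IsZariskiClosed B) : IsZariskiClosed (A ∪ B) := by
  obtain ⟨S, hS⟩ := hA
  obtain ⟨T, hT⟩ := hB
  refine ⟨{r | ∃ p ∈ S, ∃ q ∈ T, r = p * q}, fun l u w h => ?_⟩
  rw [Set.mem_union, hS l u w h, hT l u w h]
  constructor
  · rintro h1 r ⟨p, hp, q, hq, rfl⟩
    rw [map_mul]
    rcases h1 with h1 | h1
    · rw [h1 p hp, zero_mul]
    · rw [h1 q hq, mul_zero]
  · intro h1
    by_contra h2
    push Not at h2
    obtain ⟨⟨p, hp, hp0⟩, q, hq, hq0⟩ := h2
    have h3 := h1 _ ⟨p, hp, q, hq, rfl⟩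
    rw [map_mul] at h3
    exact mul_ne_zero hp0 hq0 h3

/-- the Zariski topology on the set of all lines -/
instance {k : Type} [Field k] {N : ℕ} : TopologicalSpace (Line k N) :=
  TopologicalSpace.ofClosed {A | IsZariskiClosed A} isZariskiClosed_empty
    (fun T hT => isZariskiClosed_sInter T hT) (fun A hA B hB => isZariskiClosed_union A B hA hB)

theorem isClosed_iff {k : Type} [Field k] {N : ℕ} (A : Set (Line k N)) :
    IsClosed A ↔ IsZariskiClosed A := by
  rw [← isOpen_compl_iff]
  show Aᶜᶜ ∈ {A | IsZariskiClosed A} ↔ _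
  rw [compl_compl]
  rfl

/-! ## points over extension fields -/

/-- `y` is a specialization of `x`: all polynomials over `k` that vanish at `x` vanish at `y` -/
def Sp (k : Type) [Field k] {ι L L' : Type} [Field L] [Algebra k L] [Field L'] [Algebra k L']
    (x : ι → L) (y : ι → L') : Prop :=
  ∀ p : MvPolynomial ι k, aeval x p = 0 → aeval y p = 0

/-- `u` and `w` are linearly independent -/
def Ind {L : Type} [Field L] {N : ℕ} (u w : Fin N → L) : Prop :=
  ∃ p q, u p * w q - u q * w p ≠ 0

/-- the transcendence degree of the coordinates of `x` -/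
noncomputable def td (k : Type) [Field k] {ι L : Type} [Field L] [Algebra k L] (x : ι → L) :
    Cardinal :=
  Algebra.trdeg k (IntermediateField.adjoin k (Set.range x))

/-- all polynomials in `S` vanish at `(u, w)` -/
def Zero {k : Type} [Field k] {N : ℕ} (S : Set (MvPolynomial (Fin N ⊕ Fin N) k)) {L : Type}
    [Field L] [Algebra k L] (u w : Fin N → L) : Prop :=
  ∀ p ∈ S, aeval (Sum.elim u w) p = 0

/-- the set of zeros of `S` is stable under all `2 × 2` matrices -/
def Stable {k : Type} [Field k] {N : ℕ} (S : Set (MvPolynomial (Fin N ⊕ Fin N) k)) : Prop :=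
  ∀ (L : Type) [Field L] [Algebra k L] (u w : Fin N → L) (a b c e : L), Zero S u w →
    Zero S (a • u + b • w) (c • u + e • w)

/-- the closure of the point `(u, w)` is stable under lower triangular matrices -/
def BSt (k : Type) [Field k] {N : ℕ} {L : Type} [Field L] [Algebra k L] (u w : Fin N → L) : Prop :=
  ∀ (M : Type) [Field M] [Algebra k M] (u' w' : Fin N → M) (ν lam μ : M),
    Sp k (Sum.elim u w) (Sum.elim u' w') →
      Sp k (Sum.elim u w) (Sum.elim (ν • u') (lam • w' + μ • u'))

/-- the closure of the point `(u, w)` is stable under all `2 × 2` matrices -/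
def GSt (k : Type) [Field k] {N : ℕ} {L : Type} [Field L] [Algebra k L] (u w : Fin N → L) : Prop :=
  ∀ (M : Type) [Field M] [Algebra k M] (u' w' : Fin N → M) (a b c e : M),
    Sp k (Sum.elim u w) (Sum.elim u' w') →
      Sp k (Sum.elim u w) (Sum.elim (a • u' + b • w') (c • u' + e • w'))

/-- the coefficient of `b ^ j` in `F (u + b w)`, a polynomial in the coordinates of `u` and `w` -/
noncomputable def cf {k : Type} [Field k] {N : ℕ} (F : MvPolynomial (Fin N) k) (j : ℕ) :
    MvPolynomial (Fin N ⊕ Fin N) k :=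
  (aeval (fun i => Polynomial.C (X (Sum.inl i)) + Polynomial.X * Polynomial.C (X (Sum.inr i)) :
    Fin N → Polynomial (MvPolynomial (Fin N ⊕ Fin N) k)) F).coeff j

/-- the linear form with the coefficients `h` in the variables `X (s i)` -/
noncomputable def lin {k ι : Type} [Field k] {N : ℕ} (s : Fin N → ι) (h : Fin N → k) :
    MvPolynomial ι k :=
  ∑ i, C (h i) * X (s i)

theorem aeval_lin {k ι L : Type} [Field k] [Field L] [Algebra k L] {N : ℕ} (s : Fin N → ι)
    (h : Fin N → k) (x : ι → L) :
    aeval x (lin s h) = ∑ i, algebraMap k L (h i) * x (s i) := by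
  unfold lin
  rw [map_sum]
  refine Finset.sum_congr rfl fun i _ => ?_
  rw [map_mul, aeval_C, aeval_X]

/-- the minor of the columns `p`, `q` -/
noncomputable def mnr (k : Type) [Field k] {N : ℕ} (p q : Fin N) :
    MvPolynomial (Fin N ⊕ Fin N) k :=
  X (Sum.inl p) * X (Sum.inr q) - X (Sum.inl q) * X (Sum.inr p)

theorem aeval_mnr {k L : Type} [Field k] [Field L] [Algebra k L] {N : ℕ} (p q : Fin N)
    (u w : Fin N → L) :
    aeval (Sum.elim u w) (mnr k p q) = u p * w q - u q * w p := by
  simp [mnr]

theorem Sp.refl {k : Type} [Field k] {ι L : Type} [Field L] [Algebra k L] (x : ι → L) :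
    Sp k x x := fun _ h => h

theorem Sp.trans {k : Type} [Field k] {ι L L' L'' : Type} [Field L] [Algebra k L] [Field L']
    [Algebra k L'] [Field L''] [Algebra k L''] {x : ι → L} {y : ι → L'} {z : ι → L''}
    (h : Sp k x y) (h' : Sp k y z) : Sp k x z := fun p hp => h' p (h p hp)

theorem Sp.zero {k : Type} [Field k] {N : ℕ} {L L' : Type} [Field L] [Algebra k L] [Field L']
    [Algebra k L'] {S : Set (MvPolynomial (Fin N ⊕ Fin N) k)} {u w : Fin N → L}
    {u' w' : Fin N → L'} (h : Sp k (Sum.elim u w) (Sum.elim u' w')) (hz : Zero S u w) :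
    Zero S u' w' := fun p hp => h p (hz p hp)

theorem Sp.ind {k : Type} [Field k] {N : ℕ} {L L' : Type} [Field L] [Algebra k L] [Field L']
    [Algebra k L'] {u w : Fin N → L}
    {u' w' : Fin N → L'} (h : Sp k (Sum.elim u w) (Sum.elim u' w')) (hi : Ind u' w') :
    Ind u w := by
  obtain ⟨p, q, hpq⟩ := hi
  refine ⟨p, q, fun h0 => hpq ?_⟩
  have h1 := h (mnr k p q) (by rw [aeval_mnr, h0])
  rwa [aeval_mnr] at h1

theorem GSt.bst {k : Type} [Field k] {N : ℕ} {L : Type} [Field L] [Algebra k L] {u w : Fin N → L}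
    (h : GSt k u w) : BSt k u w := by
  intro M _ _ u' w' ν lam μ hs
  have h1 := h M u' w' ν 0 μ lam hs
  rwa [zero_smul, add_zero, add_comm (μ • u')] at h1

end Pool.Agent.Lib.MP_1e3e9c_agL
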