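import Pool.Agent.Lib.MP_1e3e9c_agL.Defs

/-!
# The generic point of a parameter space all of whose points over `k` are hit
-/

set_option autoImplicit false

namespace Pool.Agent.Lib.MP_1e3e9c_agL

open MvPolynomial

theorem generic_point {k ι η : Type} [Field k] [Infinite k] [Finite ι] [Finite η]
    (S : Set (MvPolynomial (ι ⊕ η) k)) (Δ : Set (MvPolynomial ι k))
    (h : ∀ a : η → k, ∃ y : ι → k, (∀ p ∈ S, aeval (Sum.elim y a) p = 0) ∧
      ∃ δ ∈ Δ, aeval y δ ≠ 0) :
    ∃ (L : Type) (_ : Field L) (_ : Algebra k L) (y : ι → L) (a : η → L),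
      AlgebraicIndependent k a ∧ (∀ p ∈ S, aeval (Sum.elim y a) p = 0) ∧
      ∃ δ ∈ Δ, aeval y δ ≠ 0 := by
  classical
  let R := MvPolynomial (ι ⊕ η) k
  let I : Ideal R := Ideal.span S
  have hfin : (I.minimalPrimes).Finite := Ideal.finite_minimalPrimes_of_isNoetherianRing R I
  -- bad primes
  have hbad : ∀ P : Ideal R, ∃ G : MvPolynomial η k, G ≠ 0 ∧
      ((∃ G' : MvPolynomial η k, G' ≠ 0 ∧ rename Sum.inr G' ∈ P) → rename Sum.inr G ∈ P) := by
    intro P
    by_cases hP : ∃ G' : MvPolynomial η k, G' ≠ 0 ∧ rename Sum.inr G' ∈ P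
    · obtain ⟨G', h1, h2⟩ := hP
      exact ⟨G', h1, fun _ => h2⟩
    · exact ⟨1, one_ne_zero, fun h1 => absurd h1 hP⟩
  choose g hg0 hg using hbad
  let G : MvPolynomial η k := ∏ P ∈ hfin.toFinset, g P
  have hG : G ≠ 0 := Finset.prod_ne_zero_iff.2 fun P _ => hg0 P
  obtain ⟨a, ha⟩ : ∃ a : η → k, eval a G ≠ 0 := by
    by_contra hcon
    push Not at hcon
    refine hG (MvPolynomial.funext fun a => ?_)
    rw [hcon a, map_zero]
  obtain ⟨y, hy, δ, hδ, hyδ⟩ := h a
  let Q : Ideal R := RingHom.ker (aeval (Sum.elim y a) : R →ₐ[k] k)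
  have hQ : Q.IsPrime := RingHom.ker_isPrime _
  have hIQ : I ≤ Q := Ideal.span_le.2 fun p hp => hy p hp
  obtain ⟨P, hP, hPQ⟩ := Ideal.exists_minimalPrimes_le hIQ
  have hPp : P.IsPrime := hP.1.1
  have hnb : ∀ G' : MvPolynomial η k, rename Sum.inr G' ∈ P → G' = 0 := by
    intro G' hG'
    by_contra hne
    have h1 := hPQ (hg P ⟨G', hne, hG'⟩)
    have h2 : aeval (Sum.elim y a) (rename Sum.inr (g P)) = 0 := h1
    rw [aeval_rename] at h2
    have h3 : eval a (g P) = 0 := by
      rw [← coe_aeval_eq_eval]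
      exact h2
    refine ha ?_
    show eval a (∏ P ∈ hfin.toFinset, g P) = 0
    rw [map_prod]
    exact Finset.prod_eq_zero (hfin.mem_toFinset.2 hP) h3
  let K := FractionRing (R ⧸ P)
  have hinj : Function.Injective (algebraMap (R ⧸ P) K) := IsFractionRing.injective _ _
  let x : ι ⊕ η → K := fun i => algebraMap (R ⧸ P) K (Ideal.Quotient.mk P (X i))
  have hx : ∀ p : R, aeval x p = algebraMap (R ⧸ P) K (Ideal.Quotient.mk P p) := by
    intro p
    have h1 : (aeval x : R →ₐ[k] K) = (IsScalarTower.toAlgHom k (R ⧸ P) K).comp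
        (Ideal.Quotient.mkₐ k P) := by
      apply MvPolynomial.algHom_ext
      intro i
      rw [aeval_X]
      rfl
    rw [h1]
    rfl
  have hx0 : ∀ p : R, aeval x p = 0 ↔ p ∈ P := by
    intro p
    rw [hx, map_eq_zero_iff _ hinj, Ideal.Quotient.eq_zero_iff_mem]
  have hsum : Sum.elim (fun i => x (Sum.inl i)) (fun i => x (Sum.inr i)) = x := by
    funext i
    cases i <;> rfl
  refine ⟨K, inferInstance, inferInstance, fun i => x (Sum.inl i), fun i => x (Sum.inr i),
    ?_, ?_, δ, hδ, ?_⟩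
  · rw [algebraicIndependent_iff]
    intro p hp
    refine hnb p ((hx0 _).1 ?_)
    rw [aeval_rename]
    exact hp
  · intro p hp
    rw [hsum]
    exact (hx0 p).2 (hP.1.2 (Ideal.subset_span hp))
  · intro h1
    have h2 : aeval x (rename Sum.inl δ) = 0 := by
      rw [aeval_rename]
      exact h1
    have h3 : aeval (Sum.elim y a) (rename Sum.inl δ) = 0 := hPQ ((hx0 _).1 h2)
    rw [aeval_rename] at h3
    exact hyδ h3

end Pool.Agent.Lib.MP_1e3e9c_agL
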