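import Pool.Agent.Lib.MP_1e3e9c_agL.Td
import Pool.Agent.Lib.MP_463376_co.C3_Gen

/-!
# JOB Krull: cutting with hypersurfaces

PROOFS. `krull`: if `aeval x G = 0` take `z = x`.  Otherwise `P = ker (aeval x)`, `Q = ker (aeval y)` are primes of `R = MvPolynomial ι k`, `P ≤ Q`, `G ∈ Q`, `G ∉ P`.  `O = R ⧸ P` is a domain of finite
type over `k` (`ι` finite), `g` = image of `G` is not zero and lies in the prime `Q' = Q.map (mk P)` (prime because `P ≤ Q`: `Ideal.map_isPrime_of_surjective`).
`Ideal.exists_minimalPrimes_le` for `Ideal.span {g} ≤ Q'` gives a minimal prime `q` of `span {g}`, `q ≤ Q'`;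
`Ideal.height_le_one_of_isPrincipal_of_mem_minimalPrimes` gives `q.height ≤ 1`, and `q ≠ ⊥` (it contains `g ≠ 0`), so `q.height = 1`; `MP_463376_co.C3_ht1`:
`trdeg k (O ⧸ q) + 1 = trdeg k O`.  `L'' = FractionRing (O ⧸ q)`, `z i` = image of `X i`; its kernel on `R` is the preimage of `q`: `Sp k x z`, `Sp k z y`, `aeval z G = 0`, and
`td k z = trdeg k (O ⧸ q)` by `td_ker` (the quotient of `R` by the preimage of `q` is `O ⧸ q`) and `td k x = trdeg k O`.
`krull_list`: induction over the list.
`td_drop`: `ker (aeval x) < ker (aeval y)`, `td_ker` and `MP_463376_co.C3_lt`.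
-/

set_option autoImplicit false
set_option linter.unusedSectionVars false

namespace Pool.Agent.Lib.MP_1e3e9c_agL

open MvPolynomial

/-- the point of the fraction field of the quotient by a prime of the coordinate ring -/
private theorem krull_point {k L ι : Type} [Field k] [Field L] [Algebra k L] (x : ι → L)
    (q : Ideal (MvPolynomial ι k ⧸ RingHom.ker (aeval x : MvPolynomial ι k →ₐ[k] L)))
    [q.IsPrime] :
    ∃ (L'' : Type) (_ : Field L'') (_ : Algebra k L'') (z : ι → L''),
      (∀ p : MvPolynomial ι k, aeval z p = 0 ↔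
        Ideal.Quotient.mk (RingHom.ker (aeval x : MvPolynomial ι k →ₐ[k] L)) p ∈ q) ∧
      td k z = Algebra.trdeg k
        ((MvPolynomial ι k ⧸ RingHom.ker (aeval x : MvPolynomial ι k →ₐ[k] L)) ⧸ q) := by
  let P : Ideal (MvPolynomial ι k) := RingHom.ker (aeval x : MvPolynomial ι k →ₐ[k] L)
  let O := MvPolynomial ι k ⧸ P
  let E := O ⧸ q
  let φ : MvPolynomial ι k →ₐ[k] E := (Ideal.Quotient.mkₐ k q).comp (Ideal.Quotient.mkₐ k P)
  have hφ : Function.Surjective φ :=
    (Ideal.Quotient.mkₐ_surjective k q).comp (Ideal.Quotient.mkₐ_surjective k P)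
  let _ : CommRing E := inferInstanceAs (CommRing (O ⧸ q))
  let _ : Algebra k E := inferInstanceAs (Algebra k (O ⧸ q))
  have hE : IsDomain E := inferInstanceAs (IsDomain (O ⧸ q))
  let z : ι → FractionRing E := fun i => algebraMap E (FractionRing E) (φ (X i))
  have hz : ∀ p : MvPolynomial ι k, aeval z p = algebraMap E (FractionRing E) (φ p) := by
    intro p
    have h1 : (aeval z : MvPolynomial ι k →ₐ[k] FractionRing E) =
        (IsScalarTower.toAlgHom k E (FractionRing E)).comp φ := by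
      refine MvPolynomial.algHom_ext fun i => ?_
      rw [aeval_X]
      rfl
    rw [h1]
    rfl
  have hz0 : ∀ p : MvPolynomial ι k, aeval z p = 0 ↔ φ p = 0 := by
    intro p
    rw [hz]
    exact map_eq_zero_iff _ (IsFractionRing.injective E (FractionRing E))
  refine ⟨FractionRing E, inferInstance, inferInstance, z, fun p => ?_, ?_⟩
  · rw [hz0]
    exact Ideal.Quotient.eq_zero_iff_mem
  · have hker : RingHom.ker (aeval z : MvPolynomial ι k →ₐ[k] FractionRing E) =
        RingHom.ker φ := by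
      ext p
      rw [RingHom.mem_ker, RingHom.mem_ker]
      exact hz0 p
    rw [td_ker, hker]
    exact (Ideal.quotientKerAlgEquivOfSurjective hφ).trdeg_eq

theorem krull {k L L' ι : Type} [Field k] [Field L] [Algebra k L] [Field L'] [Algebra k L']
    [Finite ι] {x : ι → L} {y : ι → L'} (h : Sp k x y) (G : MvPolynomial ι k)
    (hG : aeval y G = 0) (n : ℕ) (hn : ((n + 1 : ℕ) : Cardinal) ≤ td k x) :
    ∃ (L'' : Type) (_ : Field L'') (_ : Algebra k L'') (z : ι → L''),
      Sp k x z ∧ Sp k z y ∧ aeval z G = 0 ∧ (n : Cardinal) ≤ td k z := by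
  by_cases h0 : aeval x G = 0
  · refine ⟨L, inferInstance, inferInstance, x, Sp.refl x, h, h0, le_trans ?_ hn⟩
    exact_mod_cast Nat.le_succ n
  · let P : Ideal (MvPolynomial ι k) := RingHom.ker (aeval x : MvPolynomial ι k →ₐ[k] L)
    let Q : Ideal (MvPolynomial ι k) := RingHom.ker (aeval y : MvPolynomial ι k →ₐ[k] L')
    have hP : P.IsPrime := RingHom.ker_isPrime _
    have hQ : Q.IsPrime := RingHom.ker_isPrime _
    have hPQ : P ≤ Q := fun p hp => h p hp
    have hQ' : (Q.map (Ideal.Quotient.mk P)).IsPrime :=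
      Ideal.isPrime_map_quotientMk_of_isPrime hPQ
    have hg0 : Ideal.Quotient.mk P G ≠ 0 := fun h1 => h0 (Ideal.Quotient.eq_zero_iff_mem.1 h1)
    have hle : Ideal.span {Ideal.Quotient.mk P G} ≤ Q.map (Ideal.Quotient.mk P) := by
      rw [Ideal.span_singleton_le_iff_mem]
      exact Ideal.mem_map_of_mem _ hG
    obtain ⟨q, hq, hqQ⟩ := Ideal.exists_minimalPrimes_le hle
    have hqp : q.IsPrime := hq.isPrime
    have hgq : Ideal.Quotient.mk P G ∈ q := hq.le (Ideal.mem_span_singleton_self _)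
    have hht : q.height = 1 := by
      refine le_antisymm (Ideal.height_le_one_of_isPrincipal_of_mem_minimalPrimes _ q hq) ?_
      rw [Order.one_le_iff_pos, pos_iff_ne_zero]
      intro h1
      have hbot : (⊥ : Ideal (MvPolynomial ι k ⧸ P)).IsPrime := Ideal.isPrime_bot
      have h2 : q = ⊥ := by
        by_contra hne
        have h3 : (⊥ : Ideal (MvPolynomial ι k ⧸ P)) < q := bot_lt_iff_ne_bot.2 hne
        have h4 : (⊥ : Ideal (MvPolynomial ι k ⧸ P)).height < q.height :=
          Ideal.height_strict_mono_of_isPrime h3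
        rw [h1] at h4
        exact absurd h4 (not_lt.2 bot_le)
      rw [h2] at hgq
      exact hg0 hgq
    have htr := MP_463376_co.C3_ht1 (k := k) q hht
    obtain ⟨L'', fL, aL, z, hz, htd⟩ := krull_point x q
    refine ⟨L'', fL, aL, z, fun p hp => ?_, fun p hp => ?_, (hz G).2 hgq, ?_⟩
    · rw [hz]
      have h1 : Ideal.Quotient.mk P p = 0 := Ideal.Quotient.eq_zero_iff_mem.2 hp
      change Ideal.Quotient.mk P p ∈ q
      rw [h1]
      exact q.zero_mem
    · have h1 : Ideal.Quotient.mk P p ∈ Q.map (Ideal.Quotient.mk P) := hqQ ((hz p).1 hp)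
      have h2 : p ∈ Ideal.comap (Ideal.Quotient.mk P) (Q.map (Ideal.Quotient.mk P)) := h1
      rw [Ideal.comap_map_mk hPQ] at h2
      exact h2
    · rw [htd]
      have h1 : ((n + 1 : ℕ) : Cardinal) ≤ Algebra.trdeg k ((MvPolynomial ι k ⧸ P) ⧸ q) + 1 := by
        rw [htr]
        rw [td_ker] at hn
        exact hn
      rw [Nat.cast_add, Nat.cast_one] at h1
      exact (Cardinal.add_one_le_add_one_iff).1 h1

private theorem krull_list_aux {k L' ι : Type} [Field k] [Field L'] [Algebra k L']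
    [Finite ι] {y : ι → L'} (G : List (MvPolynomial ι k)) (hG : ∀ g ∈ G, aeval y g = 0) (n : ℕ) :
    ∀ (L : Type) (_ : Field L) (_ : Algebra k L) (x : ι → L), Sp k x y →
      ((n + G.length : ℕ) : Cardinal) ≤ td k x →
    ∃ (L'' : Type) (_ : Field L'') (_ : Algebra k L'') (z : ι → L''),
      Sp k x z ∧ Sp k z y ∧ (∀ g ∈ G, aeval z g = 0) ∧ (n : Cardinal) ≤ td k z := by
  induction G with
  | nil =>
    intro L _ _ x h hn
    refine ⟨L, inferInstance, inferInstance, x, Sp.refl x, h, fun g hg => ?_, ?_⟩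
    · exact absurd hg List.not_mem_nil
    · simpa using hn
  | cons g gs ih =>
    intro L _ _ x h hn
    have hn' : (((n + gs.length) + 1 : ℕ) : Cardinal) ≤ td k x := by
      rw [List.length_cons] at hn
      rwa [← add_assoc] at hn
    obtain ⟨L1, f1, a1, z1, h1, h2, h3, h4⟩ :=
      krull h g (hG g List.mem_cons_self) (n + gs.length) hn'
    obtain ⟨L2, f2, a2, z2, h5, h6, h7, h8⟩ :=
      ih (fun g' hg' => hG g' (List.mem_cons_of_mem _ hg')) L1 f1 a1 z1 h2 h4
    refine ⟨L2, f2, a2, z2, h1.trans h5, h6, fun g' hg' => ?_, h8⟩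
    rcases List.mem_cons.1 hg' with rfl | hg'
    · exact h5 _ h3
    · exact h7 _ hg'

theorem krull_list {k L L' ι : Type} [Field k] [Field L] [Algebra k L] [Field L'] [Algebra k L']
    [Finite ι] {x : ι → L} {y : ι → L'} (h : Sp k x y) (G : List (MvPolynomial ι k))
    (hG : ∀ g ∈ G, aeval y g = 0) (n : ℕ) (hn : ((n + G.length : ℕ) : Cardinal) ≤ td k x) :
    ∃ (L'' : Type) (_ : Field L'') (_ : Algebra k L'') (z : ι → L''),
      Sp k x z ∧ Sp k z y ∧ (∀ g ∈ G, aeval z g = 0) ∧ (n : Cardinal) ≤ td k z :=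
  krull_list_aux G hG n L inferInstance inferInstance x h hn

theorem td_drop {k L L' ι : Type} [Field k] [Field L] [Algebra k L] [Field L'] [Algebra k L']
    {x : ι → L} {y : ι → L'} (h : Sp k x y) (h' : ¬ Sp k y x) : td k y + 1 ≤ td k x := by
  rw [td_ker, td_ker]
  have hP : (RingHom.ker (aeval x : MvPolynomial ι k →ₐ[k] L)).IsPrime := RingHom.ker_isPrime _
  have hQ : (RingHom.ker (aeval y : MvPolynomial ι k →ₐ[k] L')).IsPrime := RingHom.ker_isPrime _
  refine MP_463376_co.C3_lt (lt_of_le_not_ge (fun p hp => h p hp) fun h1 => h' fun p hp => ?_)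
  exact h1 hp

end Pool.Agent.Lib.MP_1e3e9c_agL
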