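import Pool.Agent.Lib.MP_1e3e9c_agL.Td

/-!
# JOB NecA: the forms which vanish on a line

PROOF of `nec_upper`.  Let `p`, `q` be columns with `D = u p * w q - u q * w p ≠ 0` and put (over `K = k(u, w) ⊆ L`) `u' = (w q • u - u q • w) / D`, `w' = (u p • w - w p • u) / D`: `u' p = 1`, `u' q = 0`, `w' p = 0`, `w' q = 1`,
and `s u' + t w'` is again of the form `s' u + t' w`.  So for all `s t : L`: `∑_m a_(j,m) ∏ (s u'_i + t w'_i) ^ (m i) = 0`; as `L` is infinite this is an identity of polynomials in `s`, `t`; homogeneous of degree `d j`.  For `l ≤ d j` let `m_l` be the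
exponent vector with `m_l p = d j - l`, `m_l q = l` and `0` elsewhere (pivot): the product is `s ^ (d j - l) t ^ l`.  Compare the coefficients of `t ^ l` (put `s = 1`, a polynomial identity in `t`): `a_(j, m_l) = - ∑_(m not a pivot) a_(j, m) r_(m, l)` with
`r_(m, l) ∈ K` the coefficient of `t ^ l` in `∏ (u'_i + t w'_i) ^ (m i)`.  (For pivots `m_l'`, `l' ≠ l`, the coefficient is `0`.)  So all coordinates of `a` lie in `adjoin k (u, w, the non-pivot coordinates)`, and there are `#η - ∑ (d j + 1)` non-pivot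
coordinates (`p ≠ q`, the pivots are different).  By `td_mem` and `td_add_card` (`td k (Sum.elim x b) ≤ td k x + n` for `n` further coordinates `b`): the claim.
-/

set_option autoImplicit false

namespace Pool.Agent.Lib.MP_1e3e9c_agL

open MvPolynomial

/-- the exponents of the monomials of degree `d` in `N` variables -/
abbrev Mon (N d : ℕ) : Type := {m : Fin N → Fin (d + 1) // ∑ i, (m i : ℕ) = d}

/-- the pivots -/
noncomputable def NecA_piv {N : ℕ} {p q : Fin N} (hpq : p ≠ q) (d : ℕ) (l : Fin (d + 1)) :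
    Mon N d :=
  ⟨fun i => if i = p then ⟨d - l, by omega⟩ else if i = q then l else ⟨0, by omega⟩, by
    classical
    have h1 : ∀ i : Fin N, (((if i = p then ⟨d - l, by omega⟩ else if i = q then l else
        ⟨0, by omega⟩ : Fin (d + 1)) : ℕ)) =
          (if i = p then d - l else 0) + (if i = q then (l : ℕ) else 0) := by
      intro i
      by_cases hp : i = p
      · subst hp
        simp [hpq]
      · by_cases hq : i = q
        · subst hq
          rw [if_neg hp, if_pos rfl, if_neg hp, if_pos rfl, zero_add]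
        · simp [hp, hq]
    rw [Finset.sum_congr rfl fun i _ => h1 i, Finset.sum_add_distrib, Finset.sum_ite_eq' ,
      Finset.sum_ite_eq']
    simp only [Finset.mem_univ, if_true]
    have := l.2
    omega⟩

theorem NecA_piv_inj {N : ℕ} {p q : Fin N} (hpq : p ≠ q) (d : ℕ) :
    Function.Injective (NecA_piv hpq d) := by
  intro l l' h
  have h1 := congrArg (fun m : Mon N d => m.1 q) h
  simpa [NecA_piv, hpq.symm] using h1

/-- the polynomial of a monomial -/
noncomputable def NecA_mp {K : Type} [Field K] {N d : ℕ} (u w : Fin N → K) (m : Mon N d) :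
    Polynomial K :=
  ∏ i, (Polynomial.C (u i) + Polynomial.X * Polynomial.C (w i)) ^ (m.1 i : ℕ)

theorem NecA_mp_map {K L : Type} [Field K] [Field L] [Algebra K L] {N d : ℕ} (u w : Fin N → K)
    (m : Mon N d) : (NecA_mp u w m).map (algebraMap K L) =
      NecA_mp (fun i => algebraMap K L (u i)) (fun i => algebraMap K L (w i)) m := by
  unfold NecA_mp
  rw [Polynomial.map_prod]
  refine Finset.prod_congr rfl fun i _ => ?_
  simp

theorem NecA_mp_eval {K : Type} [Field K] {N d : ℕ} (u w : Fin N → K)
    (m : Mon N d) (t : K) : (NecA_mp u w m).eval t = ∏ i, (u i + t * w i) ^ (m.1 i : ℕ) := by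
  unfold NecA_mp
  rw [Polynomial.eval_prod]
  refine Finset.prod_congr rfl fun i _ => ?_
  rw [Polynomial.eval_pow, Polynomial.eval_add, Polynomial.eval_mul, Polynomial.eval_C,
    Polynomial.eval_C, Polynomial.eval_X]

theorem NecA_mp_piv {K : Type} [Field K] {N : ℕ} {p q : Fin N} (hpq : p ≠ q) (d : ℕ)
    (l : Fin (d + 1)) (u w : Fin N → K) (h1 : u p = 1) (h2 : u q = 0) (h3 : w p = 0)
    (h4 : w q = 1) : NecA_mp u w (NecA_piv hpq d l) = Polynomial.X ^ (l : ℕ) := by
  classical
  unfold NecA_mp
  have h : ∀ i : Fin N, (Polynomial.C (u i) + Polynomial.X * Polynomial.C (w i)) ^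
      ((NecA_piv hpq d l).1 i : ℕ) =
        if i = q then (Polynomial.X : Polynomial K) ^ (l : ℕ) else 1 := by
    intro i
    by_cases hp : i = p
    · subst hp
      simp [NecA_piv, hpq, h1, h3]
    · by_cases hq : i = q
      · subst hq
        simp [NecA_piv, hp, h2, h4]
      · simp [NecA_piv, hp, hq]
  rw [Finset.prod_congr rfl fun i _ => h i, Finset.prod_ite_eq']
  simp

theorem NecA_tower {k L : Type} [Field k] [Field L] [Algebra k L] (K₀ : IntermediateField k L)
    (K₁ : IntermediateField K₀ L) :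
    Algebra.trdeg k K₁ = Algebra.trdeg k K₀ + Algebra.trdeg K₀ K₁ := by
  have h1 : FaithfulSMul k K₀ :=
    (faithfulSMul_iff_algebraMap_injective k K₀).2 (algebraMap k K₀).injective
  have h2 : FaithfulSMul K₀ K₁ :=
    (faithfulSMul_iff_algebraMap_injective K₀ K₁).2 (algebraMap K₀ K₁).injective
  exact (trdeg_add_eq k K₀ (A := K₁)).symm

theorem td_add_card {k L ι : Type} [Field k] [Field L] [Algebra k L] {n : ℕ} (x : ι → L)
    (b : Fin n → L) : td k (Sum.elim x b) ≤ td k x + n := by
  have h1 : IntermediateField.adjoin k (Set.range (Sum.elim x b)) =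
      (IntermediateField.adjoin (IntermediateField.adjoin k (Set.range x))
        (Set.range b)).restrictScalars k := by
    rw [IntermediateField.adjoin_adjoin_left, Set.Sum.elim_range]
  have h2 : td k (Sum.elim x b) = Algebra.trdeg k (IntermediateField.adjoin
      (IntermediateField.adjoin k (Set.range x)) (Set.range b)) := by
    unfold td
    rw [h1]
    rfl
  have h3 : Algebra.trdeg (IntermediateField.adjoin k (Set.range x)) (IntermediateField.adjoin
      (IntermediateField.adjoin k (Set.range x)) (Set.range b)) ≤ n :=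
    td_card (k := IntermediateField.adjoin k (Set.range x)) b
  rw [h2, NecA_tower]
  exact add_le_add le_rfl h3

/-- the coefficients of the polynomial of a monomial lie in the field generated by `u`, `w` -/
theorem NecA_coeff_mem {k L : Type} [Field k] [Field L] [Algebra k L] {N d : ℕ}
    (K : IntermediateField k L) (u w : Fin N → L) (hu : ∀ i, u i ∈ K) (hw : ∀ i, w i ∈ K)
    (m : Mon N d) (l : ℕ) : (NecA_mp u w m).coeff l ∈ K := by
  have h := NecA_mp_map (K := K) (L := L) (fun i => ⟨u i, hu i⟩) (fun i => ⟨w i, hw i⟩) m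
  have h' : (NecA_mp (fun i => (⟨u i, hu i⟩ : K)) (fun i => (⟨w i, hw i⟩ : K)) m).map
      (algebraMap K L) = NecA_mp u w m := h
  rw [← h', Polynomial.coeff_map]
  exact SetLike.coe_mem _

/-- the coordinates at the pivots -/
theorem NecA_pivot {L : Type} [Field L] [Infinite L] {N : ℕ} {p q : Fin N} (hpq : p ≠ q) (d : ℕ)
    (u w : Fin N → L) (h1 : u p = 1) (h2 : u q = 0) (h3 : w p = 0) (h4 : w q = 1)
    (a : Mon N d → L) (ha : ∀ t : L, ∑ m : Mon N d, a m * ∏ i, (u i + t * w i) ^ (m.1 i : ℕ) = 0)
    (l : Fin (d + 1)) :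
    a (NecA_piv hpq d l) = - ∑ m ∈ Finset.univ.filter (fun m : Mon N d =>
      m ∉ Set.range (NecA_piv hpq d)), a m * (NecA_mp u w m).coeff l := by
  classical
  have hP : (∑ m : Mon N d, Polynomial.C (a m) * NecA_mp u w m) = 0 := by
    apply Polynomial.eq_zero_of_infinite_isRoot
    have : {x | Polynomial.IsRoot (∑ m : Mon N d, Polynomial.C (a m) * NecA_mp u w m) x} =
        Set.univ := by
      ext t
      refine ⟨fun _ => Set.mem_univ _, fun _ => ?_⟩
      show Polynomial.eval t (∑ m : Mon N d, Polynomial.C (a m) * NecA_mp u w m) = 0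
      rw [Polynomial.eval_finsetSum, ← ha t]
      refine Finset.sum_congr rfl fun m _ => ?_
      rw [Polynomial.eval_mul, Polynomial.eval_C, NecA_mp_eval]
    rw [this]
    exact Set.infinite_univ
  have hc := congrArg (fun P => Polynomial.coeff P (l : ℕ)) hP
  simp only [Polynomial.finsetSum_coeff, Polynomial.coeff_C_mul, Polynomial.coeff_zero] at hc
  rw [← Finset.sum_filter_add_sum_filter_not Finset.univ
    (fun m : Mon N d => m ∉ Set.range (NecA_piv hpq d))] at hc
  have hq : ∑ m ∈ Finset.univ.filter (fun m : Mon N d => ¬ m ∉ Set.range (NecA_piv hpq d)),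
      a m * (NecA_mp u w m).coeff l = a (NecA_piv hpq d l) := by
    rw [Finset.sum_eq_single (NecA_piv hpq d l)]
    · rw [NecA_mp_piv hpq d l u w h1 h2 h3 h4]
      simp
    · intro m hm hne
      rw [Finset.mem_filter, not_not] at hm
      obtain ⟨l', rfl⟩ := hm.2
      rw [NecA_mp_piv hpq d l' u w h1 h2 h3 h4, Polynomial.coeff_X_pow, if_neg, mul_zero]
      intro hl
      exact hne (by rw [Fin.ext hl])
    · intro hm
      refine absurd ?_ hm
      rw [Finset.mem_filter, not_not]
      exact ⟨Finset.mem_univ _, ⟨l, rfl⟩⟩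
  rw [hq] at hc
  linear_combination hc

theorem nec_upper {k L : Type} [Field k] [Field L] [Infinite L] [Algebra k L] {N c : ℕ}
    (d : Fin c → ℕ) (u w : Fin N → L) (hi : Ind u w) (a : ((j : Fin c) × Mon N (d j)) → L)
    (ha : ∀ j, ∀ s t : L,
      ∑ m : Mon N (d j), a ⟨j, m⟩ * ∏ i, (s * u i + t * w i) ^ (m.1 i : ℕ) = 0) :
    td k (Sum.elim (Sum.elim u w) a) + ((∑ j, (d j + 1) : ℕ) : Cardinal) ≤
      td k (Sum.elim u w) + (Fintype.card ((j : Fin c) × Mon N (d j)) : Cardinal) := by
  classical
  obtain ⟨p, q, hD⟩ := hi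
  have hpq : p ≠ q := by
    rintro rfl
    exact hD (by ring)
  -- the pivots
  let P : ((j : Fin c) × Fin (d j + 1)) → ((j : Fin c) × Mon N (d j)) :=
    fun x => ⟨x.1, NecA_piv hpq (d x.1) x.2⟩
  have hP : Function.Injective P := by
    rintro ⟨j, l⟩ ⟨j', l'⟩ h
    obtain ⟨h1, h2⟩ := Sigma.mk.inj_iff.1 h
    dsimp only at h1
    subst h1
    have h3 := NecA_piv_inj hpq _ (eq_of_heq h2)
    dsimp only at h3
    rw [h3]
  let n := Fintype.card {e : (j : Fin c) × Mon N (d j) // e ∉ Set.range P}
  have hn : (∑ j, (d j + 1)) + n = Fintype.card ((j : Fin c) × Mon N (d j)) := by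
    have h1 : Fintype.card {e : (j : Fin c) × Mon N (d j) // e ∈ Set.range P} =
        ∑ j, (d j + 1) := by
      have h2 : Fintype.card (Set.range P) = Fintype.card ((j : Fin c) × Fin (d j + 1)) :=
        Set.card_range_of_injective hP
      rw [Fintype.card_sigma] at h2
      simp only [Fintype.card_fin] at h2
      rw [← h2]
    have h3 := Fintype.card_subtype_compl (fun e : (j : Fin c) × Mon N (d j) => e ∈ Set.range P)
    have h4 := Fintype.card_subtype_le (fun e : (j : Fin c) × Mon N (d j) => e ∈ Set.range P)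
    rw [h1] at h3 h4
    show _ + Fintype.card {e : (j : Fin c) × Mon N (d j) // ¬ e ∈ Set.range P} = _
    rw [h3]
    omega
  let eq := (Fintype.equivFin {e : (j : Fin c) × Mon N (d j) // e ∉ Set.range P}).symm
  let b : Fin n → L := fun i => a (eq i).1
  set K := IntermediateField.adjoin k (Set.range (Sum.elim (Sum.elim u w) b)) with hK
  have hu : ∀ i, u i ∈ K := fun i =>
    IntermediateField.subset_adjoin k _ ⟨Sum.inl (Sum.inl i), rfl⟩
  have hw : ∀ i, w i ∈ K := fun i =>
    IntermediateField.subset_adjoin k _ ⟨Sum.inl (Sum.inr i), rfl⟩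
  have hb : ∀ e : (j : Fin c) × Mon N (d j), e ∉ Set.range P → a e ∈ K := by
    intro e he
    refine IntermediateField.subset_adjoin k _ ⟨Sum.inr (eq.symm ⟨e, he⟩), ?_⟩
    simp [b]
  -- the normalized basis of the line
  let D := u p * w q - u q * w p
  have hDK : D ∈ K := sub_mem (mul_mem (hu p) (hw q)) (mul_mem (hu q) (hw p))
  let u' : Fin N → L := fun i => (w q * u i - u q * w i) / D
  let w' : Fin N → L := fun i => (u p * w i - w p * u i) / D
  have hu' : ∀ i, u' i ∈ K := fun i =>
    div_mem (sub_mem (mul_mem (hw q) (hu i)) (mul_mem (hu q) (hw i))) hDK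
  have hw' : ∀ i, w' i ∈ K := fun i =>
    div_mem (sub_mem (mul_mem (hu p) (hw i)) (mul_mem (hw p) (hu i))) hDK
  have h1 : u' p = 1 := by
    show (w q * u p - u q * w p) / D = 1
    rw [div_eq_one_iff_eq hD]
    show _ = u p * w q - u q * w p
    ring
  have h2 : u' q = 0 := by
    show (w q * u q - u q * w q) / D = 0
    rw [mul_comm, sub_self, zero_div]
  have h3 : w' p = 0 := by
    show (u p * w p - w p * u p) / D = 0
    rw [mul_comm, sub_self, zero_div]
  have h4 : w' q = 1 := by
    show (u p * w q - w p * u q) / D = 1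
    rw [div_eq_one_iff_eq hD]
    show _ = u p * w q - u q * w p
    ring
  have ha' : ∀ j, ∀ t : L,
      ∑ m : Mon N (d j), a ⟨j, m⟩ * ∏ i, (u' i + t * w' i) ^ (m.1 i : ℕ) = 0 := by
    intro j t
    rw [← ha j ((w q - t * w p) / D) ((t * u p - u q) / D)]
    refine Finset.sum_congr rfl fun m _ => ?_
    congr 1
    refine Finset.prod_congr rfl fun i _ => ?_
    congr 1
    show (w q * u i - u q * w i) / D + t * ((u p * w i - w p * u i) / D) = _
    ring
  have key : ∀ e : (j : Fin c) × Mon N (d j), a e ∈ K := by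
    intro e
    by_cases he : e ∈ Set.range P
    · obtain ⟨⟨j, l⟩, rfl⟩ := he
      have h5 := NecA_pivot hpq (d j) u' w' h1 h2 h3 h4 (fun m => a ⟨j, m⟩) (ha' j) l
      show a ⟨j, NecA_piv hpq (d j) l⟩ ∈ K
      rw [h5]
      refine neg_mem (sum_mem fun m hm => mul_mem (hb _ ?_) (NecA_coeff_mem K u' w' hu' hw' m l))
      rintro ⟨⟨j', l'⟩, h6⟩
      obtain ⟨rfl, h7⟩ := Sigma.mk.inj_iff.1 h6
      exact (Finset.mem_filter.1 hm).2 ⟨l', eq_of_heq h7⟩
    · exact hb e he
  have h5 : td k (Sum.elim (Sum.elim u w) a) ≤ td k (Sum.elim (Sum.elim u w) b) := by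
    refine td_mem fun i => ?_
    rcases i with (i | i) | i
    · exact hu i
    · exact hw i
    · exact key i
  have h6 := td_add_card (k := k) (Sum.elim u w) b
  calc td k (Sum.elim (Sum.elim u w) a) + ((∑ j, (d j + 1) : ℕ) : Cardinal)
      ≤ (td k (Sum.elim u w) + n) + ((∑ j, (d j + 1) : ℕ) : Cardinal) :=
        add_le_add (h5.trans h6) le_rfl
    _ = td k (Sum.elim u w) + (Fintype.card ((j : Fin c) × Mon N (d j)) : Cardinal) := by
        rw [← hn, add_assoc, Nat.cast_add, add_comm (n : Cardinal)]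

end Pool.Agent.Lib.MP_1e3e9c_agL
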