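import Pool.Agent.Lib.MP_1e3e9c_agL.Defs

/-!
# JOB Pt: points over `k`

PROOFS. `exists_kpoint`: the kernel `I` of `aeval x` is prime, so by the Nullstellensatz
(`MvPolynomial.IsPrime.vanishingIdeal_zeroLocus`, `mem_vanishingIdeal_iff`, `mem_zeroLocus_iff`) there is a point of the zero locus of `I` where `δ ∉ I` does not vanish
(`MP_1e3e9c_ag/FL/Desc.lean`, `spec_point`, on main, is exactly this with `eval` instead of `aeval`: copy it).
`exists_kpair`: the minor.
`ind_span`: `Ind u w` iff the span has dimension two (`k` any field).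
`gl_change`: two bases of the same plane differ by an invertible matrix.
-/

set_option autoImplicit false

namespace Pool.Agent.Lib.MP_1e3e9c_agL

open MvPolynomial

theorem exists_kpoint {k L ι : Type} [Field k] [IsAlgClosed k] [Field L] [Algebra k L] [Finite ι]
    (x : ι → L) (δ : MvPolynomial ι k) (hδ : aeval x δ ≠ 0) :
    ∃ y : ι → k, Sp k x y ∧ aeval y δ ≠ 0 := by
  classical
  let φ : MvPolynomial ι k →ₐ[k] L := aeval x
  let I : Ideal (MvPolynomial ι k) := RingHom.ker φ
  have hI : I.IsPrime := RingHom.ker_isPrime φ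
  have hδI : δ ∉ vanishingIdeal k (zeroLocus k I) := by
    rw [IsPrime.vanishingIdeal_zeroLocus]
    exact hδ
  rw [mem_vanishingIdeal_iff] at hδI
  push Not at hδI
  obtain ⟨y, hyI, hy⟩ := hδI
  rw [mem_zeroLocus_iff] at hyI
  exact ⟨y, fun p hp => hyI p hp, hy⟩

theorem exists_kpair {k L : Type} [Field k] [IsAlgClosed k] [Field L] [Algebra k L] {N : ℕ}
    (u w : Fin N → L) (hi : Ind u w) (δ : MvPolynomial (Fin N ⊕ Fin N) k)
    (hδ : aeval (Sum.elim u w) δ ≠ 0) :
    ∃ u' w' : Fin N → k, Ind u' w' ∧ Sp k (Sum.elim u w) (Sum.elim u' w') ∧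
      aeval (Sum.elim u' w') δ ≠ 0 := by
  obtain ⟨p, q, hpq⟩ := hi
  obtain ⟨y, hy, hy0⟩ := exists_kpoint (Sum.elim u w) (δ * mnr k p q) (by
    rw [map_mul, aeval_mnr]
    exact mul_ne_zero hδ hpq)
  have he : Sum.elim (fun i => y (Sum.inl i)) (fun i => y (Sum.inr i)) = y := Sum.elim_comp_inl_inr y
  refine ⟨fun i => y (Sum.inl i), fun i => y (Sum.inr i), ⟨p, q, fun h0 => hy0 ?_⟩, ?_, ?_⟩
  · rw [map_mul, ← he, aeval_mnr, h0, mul_zero]
  · rw [he]
    exact hy
  · rw [he]
    rw [map_mul] at hy0
    exact left_ne_zero_of_mul hy0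

/-- the minor of linear combinations -/
private theorem Pt_minor {L : Type} [Field L] {N : ℕ} (u w : Fin N → L) (a b c e : L)
    (p q : Fin N) : (a • u + b • w) p * (c • u + e • w) q - (a • u + b • w) q * (c • u + e • w) p =
      (a * e - b * c) * (u p * w q - u q * w p) := by
  simp only [Pi.add_apply, Pi.smul_apply, smul_eq_mul]
  ring

/-- independence in terms of minors -/
private theorem Pt_li {L : Type} [Field L] {N : ℕ} (u w : Fin N → L) :
    LinearIndependent L ![u, w] ↔ Ind u w := by
  rw [LinearIndependent.pair_iff]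
  constructor
  · intro h
    by_contra hn
    have hm : ∀ p q, u p * w q - u q * w p = 0 := by
      intro p q
      by_contra h0
      exact hn ⟨p, q, h0⟩
    have h1 : ∀ q, w q = 0 ∧ -u q = 0 := by
      intro q
      refine h (w q) (-u q) ?_
      funext p
      simp only [Pi.add_apply, Pi.smul_apply, smul_eq_mul, Pi.zero_apply]
      linear_combination hm p q
    have h2 : (1 : L) = 0 ∧ (1 : L) = 0 := by
      refine h 1 1 ?_
      funext p
      have h3 := h1 p
      have h4 : u p = 0 := neg_eq_zero.mp h3.2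
      simp only [Pi.add_apply, Pi.smul_apply, smul_eq_mul, Pi.zero_apply]
      rw [h4, h3.1, mul_zero, add_zero]
    exact one_ne_zero h2.1
  · rintro ⟨p, q, hpq⟩ s t h
    have hp : s * u p + t * w p = 0 := congrFun h p
    have hq : s * u q + t * w q = 0 := congrFun h q
    constructor
    · have h1 : s * (u p * w q - u q * w p) = 0 := by
        linear_combination w q * hp - w p * hq
      exact (mul_eq_zero.mp h1).resolve_right hpq
    · have h1 : t * (u p * w q - u q * w p) = 0 := by
        linear_combination u p * hq - u q * hp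
      exact (mul_eq_zero.mp h1).resolve_right hpq

theorem ind_iff {k : Type} [Field k] {N : ℕ} (u w : Fin N → k) :
    Ind u w ↔ Module.finrank k (Submodule.span k {u, w}) = 2 := by
  rw [← Pt_li, linearIndependent_iff_card_eq_finrank_span, Fintype.card_fin, Set.finrank,
    Matrix.range_cons_cons_empty]
  exact eq_comm

/-- every line is spanned by two vectors -/
theorem Line.exists_span {k : Type} [Field k] {N : ℕ} (l : Line k N) :
    ∃ u w : Fin N → k, Ind u w ∧ l.V = Submodule.span k {u, w} := by
  let b := Module.finBasisOfFinrankEq k l.V l.two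
  have hr : Set.range b = {b 0, b 1} := by
    ext x
    simp only [Set.mem_range, Set.mem_insert_iff, Set.mem_singleton_iff]
    constructor
    · rintro ⟨i, rfl⟩
      fin_cases i
      · exact Or.inl rfl
      · exact Or.inr rfl
    · rintro (rfl | rfl)
      · exact ⟨0, rfl⟩
      · exact ⟨1, rfl⟩
  have hs : l.V = Submodule.span k {((b 0 : l.V) : Fin N → k), ((b 1 : l.V) : Fin N → k)} := by
    have h1 : Submodule.span k (Set.range b) = ⊤ := b.span_eq
    have h2 : Submodule.map l.V.subtype (Submodule.span k (Set.range b)) = l.V := by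
      rw [h1, Submodule.map_subtype_top]
    rw [Submodule.map_span, hr, Set.image_pair] at h2
    exact h2.symm
  refine ⟨(b 0 : l.V), (b 1 : l.V), ?_, hs⟩
  rw [ind_iff, ← hs]
  exact l.two

theorem gl_change {k : Type} [Field k] {N : ℕ} {u w u' w' : Fin N → k}
    (h : Submodule.span k {u, w} = Submodule.span k {u', w'}) (hi : Ind u w) :
    ∃ a b c e : k, a * e - b * c ≠ 0 ∧ u = a • u' + b • w' ∧ w = c • u' + e • w' := by
  have hu : u ∈ Submodule.span k {u', w'} := h ▸ Submodule.subset_span (Set.mem_insert _ _)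
  have hw : w ∈ Submodule.span k {u', w'} :=
    h ▸ Submodule.subset_span (Set.mem_insert_of_mem _ (Set.mem_singleton _))
  obtain ⟨a, b, hab⟩ := Submodule.mem_span_pair.mp hu
  obtain ⟨c, e, hce⟩ := Submodule.mem_span_pair.mp hw
  refine ⟨a, b, c, e, fun h0 => ?_, hab.symm, hce.symm⟩
  obtain ⟨p, q, hpq⟩ := hi
  refine hpq ?_
  rw [← hab, ← hce, Pt_minor, h0, zero_mul]

theorem ind_gl {L : Type} [Field L] {N : ℕ} {u w : Fin N → L} (hi : Ind u w) {a b c e : L}
    (h : a * e - b * c ≠ 0) : Ind (a • u + b • w) (c • u + e • w) := by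
  obtain ⟨p, q, hpq⟩ := hi
  refine ⟨p, q, ?_⟩
  rw [Pt_minor]
  exact mul_ne_zero h hpq

/-- vectors of an independent pair are not proportional -/
theorem ind_ne {L : Type} [Field L] {N : ℕ} {u w : Fin N → L} (hi : Ind u w) : u ≠ 0 ∧ w ≠ 0 := by
  obtain ⟨p, q, hpq⟩ := hi
  constructor
  · rintro rfl
    exact hpq (by simp)
  · rintro rfl
    exact hpq (by simp)

end Pool.Agent.Lib.MP_1e3e9c_agL
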