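import Pool.Agent.Lib.MP_1e3e9c_agL.Res
import Pool.Agent.Lib.MP_1e3e9c_agL.Const
import Pool.Agent.Lib.MP_1e3e9c_agL.Pt

/-!
# JOB RA: the contact can be raised, moving points

PROOF.  Suppose that no such pair exists.  `hC0`: for every independent specialization `(u', w')` of `(u, w)` over a field `M` the number `c_m(u', w')` is not `0`: otherwise
`exists_kpair` for `(u', w')` (with `δ = 1`) gives an independent pair over `k` which is a specialization of `(u', w')`, so of `(u, w)`, with `c_m = 0`.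
For `h : Fin N → k` put `A_h = res F d m h ^ m * lin inl h ^ ((d - m) ^ 2)`, `C = cf F m ^ d`: both are multiplied by `ν ^ ((d - m) d) lam ^ (d m)` under `(u, w) ↦ (ν u, lam w + μ u)`
(`res_borel`, `cf_borel`, `lin inl h` is multiplied by `ν`; `(d - m) m + (d - m) ^ 2 = (d - m) d`).  So by `const_zero` (over `κ = k`):
(*) if `A_h(u1, w1) = 0` for one independent specialization `(u1, w1)` then `A_h(u, w) = 0`, hence `A_h = 0` at all specializations.
Take an independent specialization `(u1, w1)` over `k` (`exists_kpair`, `δ = 1`); `C(u1, w1) ≠ 0`.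
(1) `u` is in the span of `u1`, `w1` over `L`: `u = α u1 + β w1`.  `β ≠ 0` by `hne`.  `c_0(u, w) = F(u) = 0` (`m ≥ 1`; `cf_expand` with `a = 1`, `b = 0`).  By `cf_expand` for `(u1, w1)` (coefficients `c_j(u1, w1) ∈ k`, zero for
`j < m`): `0 = F(α u1 + β w1) = β ^ m ∑_(j ≥ m) c_j(u1, w1) α ^ (d - j) β ^ (j - m)`, so `x = α / β` is a zero of the polynomial `∑_(j ≥ m) c_j(u1, w1) X ^ (d - j)` over `k`, not zero because
`c_m(u1, w1) ≠ 0`; as `k` is algebraically closed `x ∈ k` and `u = β (x u1 + w1)` contradicts `hne`.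
(2) `u` is not in that span: the `3 × 3` minor of `(u1, w1, u)` for some columns is not zero; it is a polynomial `δ` in the coordinates of `u`; `exists_kpair` with this `δ` gives an independent specialization
`(u2, w2)` over `k` with `u2` not in the span of `u1`, `w1`.  Choose `ε ∈ k`, `ε ≠ 0`, with `∑_(m ≤ j ≤ d) c_j(u1, w1) ε ^ (j - m) ≠ 0` (a polynomial in `ε` with constant coefficient `c_m ≠ 0`; `k` is infinite), and
`h : Fin N → k` with `h(u2) = 0`, `h(w1) = 1`, `h(u1) = -ε` (`u1`, `w1`, `u2` are linearly independent).  Then `A_h(u2, w2) = 0` (`(d - m) ^ 2 > 0`), so `A_h(u1, w1) = 0` by (*), but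
`A_h(u1, w1) = (∑ c_j ε ^ (j - m)) ^ m (-ε) ^ ((d - m) ^ 2) ≠ 0`.
-/

set_option autoImplicit false

namespace Pool.Agent.Lib.MP_1e3e9c_agL

open MvPolynomial

/-- an element of an extension of an algebraically closed field that is a zero of a polynomial is in the field -/
private theorem RA_mem {k L : Type} [Field k] [IsAlgClosed k] [Field L] [Algebra k L] (P : Polynomial k)
    (hP : P ≠ 0) (x : L) (hx : Polynomial.aeval x P = 0) : ∃ y : k, algebraMap k L y = x := by
  have hint : IsIntegral k x := (isAlgebraic_iff_isIntegral).1 ⟨P, hP, hx⟩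
  exact minpoly.mem_range_of_degree_eq_one k x
    (IsAlgClosed.degree_eq_one_of_irreducible k (minpoly.irreducible hint))

/-- Cramer -/
private theorem RA_cramer {k : Type} [Field k] {N : ℕ} (u1 w1 u2 : Fin N → k) (p q r : Fin N)
    (hΔ : (u1 p * w1 q - u1 q * w1 p) * u2 r - (u1 p * w1 r - u1 r * w1 p) * u2 q +
      (u1 q * w1 r - u1 r * w1 q) * u2 p ≠ 0) (e : k) :
    ∃ h : Fin N → k, (∑ i, h i * u2 i = 0) ∧ (∑ i, h i * w1 i = 1) ∧ (∑ i, h i * u1 i = -e) := by
  classical
  set Δ := (u1 p * w1 q - u1 q * w1 p) * u2 r - (u1 p * w1 r - u1 r * w1 p) * u2 q +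
      (u1 q * w1 r - u1 r * w1 q) * u2 p with hΔd
  let a : k := (-e * (w1 q * u2 r - w1 r * u2 q) - (u1 q * u2 r - u1 r * u2 q)) / Δ
  let b : k := (e * (w1 p * u2 r - w1 r * u2 p) + (u1 p * u2 r - u1 r * u2 p)) / Δ
  let c : k := (-e * (w1 p * u2 q - w1 q * u2 p) - (u1 p * u2 q - u1 q * u2 p)) / Δ
  have key : ∀ v : Fin N → k, ∑ i, (Pi.single p a + Pi.single q b + Pi.single r c : Fin N → k) i * v i =
      a * v p + b * v q + c * v r := by
    intro v
    simp only [Pi.add_apply, add_mul, Finset.sum_add_distrib]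
    congr 1
    · congr 1
      · rw [Finset.sum_eq_single p]
        · rw [Pi.single_eq_same]
        · intro i _ hi; rw [Pi.single_eq_of_ne hi, zero_mul]
        · intro h; exact absurd (Finset.mem_univ _) h
      · rw [Finset.sum_eq_single q]
        · rw [Pi.single_eq_same]
        · intro i _ hi; rw [Pi.single_eq_of_ne hi, zero_mul]
        · intro h; exact absurd (Finset.mem_univ _) h
    · rw [Finset.sum_eq_single r]
      · rw [Pi.single_eq_same]
      · intro i _ hi; rw [Pi.single_eq_of_ne hi, zero_mul]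
      · intro h; exact absurd (Finset.mem_univ _) h
  refine ⟨Pi.single p a + Pi.single q b + Pi.single r c, ?_, ?_, ?_⟩
  · rw [key]
    simp only [a, b, c]
    rw [div_mul_eq_mul_div, div_mul_eq_mul_div, div_mul_eq_mul_div, ← add_div, ← add_div,
      div_eq_iff hΔ]
    ring
  · rw [key]
    simp only [a, b, c]
    rw [div_mul_eq_mul_div, div_mul_eq_mul_div, div_mul_eq_mul_div, ← add_div, ← add_div,
      div_eq_iff hΔ, hΔd]
    ring
  · rw [key]
    simp only [a, b, c]
    rw [div_mul_eq_mul_div, div_mul_eq_mul_div, div_mul_eq_mul_div, ← add_div, ← add_div,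
      div_eq_iff hΔ, hΔd]
    ring

/-- choice of the number ε -/
private theorem RA_eps {k : Type} [Field k] [IsAlgClosed k] {d m : ℕ} (hmd : m < d) (c : ℕ → k)
    (hc : c m ≠ 0) : ∃ e : k, e ≠ 0 ∧ ∑ j ∈ Finset.Icc m d, c j * e ^ (j - m) ≠ 0 := by
  have : Infinite k := IsAlgClosed.instInfinite
  set Q : Polynomial k := ∑ j ∈ Finset.Icc m d, Polynomial.C (c j) * Polynomial.X ^ (j - m) with hQ
  have hQ0 : Q ≠ 0 := by
    intro h
    have h1 : Q.coeff 0 = c m := by
      rw [hQ, Polynomial.finsetSum_coeff, Finset.sum_eq_single m]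
      · simp
      · intro j hj hjm
        rw [Finset.mem_Icc] at hj
        rw [Polynomial.coeff_C_mul, Polynomial.coeff_X_pow, if_neg (by omega), mul_zero]
      · intro h; exact absurd (Finset.mem_Icc.2 ⟨le_refl _, hmd.le⟩) h
    rw [h, Polynomial.coeff_zero] at h1
    exact hc h1.symm
  have hR : Polynomial.X * Q ≠ 0 := mul_ne_zero Polynomial.X_ne_zero hQ0
  obtain ⟨e, he⟩ : ∃ e : k, (Polynomial.X * Q).eval e ≠ 0 := by
    by_contra h
    push Not at h
    exact hR (Polynomial.funext fun x => by rw [h x, Polynomial.eval_zero])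
  rw [Polynomial.eval_mul, Polynomial.eval_X] at he
  refine ⟨e, fun h => he (by rw [h, zero_mul]), fun h => he ?_⟩
  have : Q.eval e = ∑ j ∈ Finset.Icc m d, c j * e ^ (j - m) := by
    rw [hQ, Polynomial.eval_finsetSum]
    refine Finset.sum_congr rfl fun j _ => ?_
    rw [Polynomial.eval_mul, Polynomial.eval_C, Polynomial.eval_pow, Polynomial.eval_X]
  rw [this, h, mul_zero]

theorem contact_step_a {k L : Type} [Field k] [IsAlgClosed k] [Field L] [Algebra k L] {N d m : ℕ}
    (hm : 1 ≤ m) (hmd : m < d) {F : MvPolynomial (Fin N) k} (hF : F.IsHomogeneous d)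
    (u w : Fin N → L) (hi : Ind u w) (hB : BSt k u w)
    (hc : ∀ j < m, aeval (Sum.elim u w) (cf F j) = 0)
    (hne : ∀ (x : Fin N → k) (ν : L), u ≠ ν • (fun i => algebraMap k L (x i))) :
    ∃ u' w' : Fin N → k, Ind u' w' ∧ Sp k (Sum.elim u w) (Sum.elim u' w') ∧
      aeval (Sum.elim u' w') (cf F m) = 0 := by
  by_contra hno
  push Not at hno
  have hC0 : ∀ (M : Type) [Field M] [Algebra k M] (u' w' : Fin N → M), Ind u' w' →
      Sp k (Sum.elim u w) (Sum.elim u' w') → aeval (Sum.elim u' w') (cf F m) ≠ 0 := by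
    intro M _ _ u' w' hi' hs' h0
    obtain ⟨u2, w2, hi2, hs2, _⟩ := exists_kpair (k := k) u' w' hi' 1 (by simp)
    exact hno u2 w2 hi2 (hs'.trans hs2) (hs2 _ h0)
  have hBL : ∀ ν lam μ : L, ν ≠ 0 → lam ≠ 0 →
      Sp k (Sum.elim u w) (Sum.elim (ν • u) (lam • w + μ • u)) := fun ν lam μ _ _ =>
    hB L u w ν lam μ (Sp.refl _)
  -- the key
  have key : ∀ h : Fin N → k, ∀ u2 w2 : Fin N → k, Ind u2 w2 →
      Sp k (Sum.elim u w) (Sum.elim u2 w2) → (∑ i, h i * u2 i = 0) →
      aeval (Sum.elim u w) (res F d m h ^ m * (lin Sum.inl h) ^ ((d - m) ^ 2)) = 0 := by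
    intro h u2 w2 hi2 hs2 hh
    have hexp : (d - m) * m + (d - m) ^ 2 = (d - m) * d := by
      obtain ⟨e, rfl⟩ : ∃ e, d = m + e := ⟨d - m, by omega⟩
      rw [Nat.add_sub_cancel_left]
      ring
    refine const_zero u w hi hBL (res F d m h ^ m * (lin Sum.inl h) ^ ((d - m) ^ 2)) (cf F m ^ d)
      ((d - m) * d) (d * m) ?_ ?_ ?_ u2 w2 hi2 hs2 ?_
    · intro ν lam μ hν hlam
      rw [map_mul, map_pow, map_pow, res_borel hF hmd.le h u w hc ν lam μ hν hlam, map_mul, map_pow,
        map_pow, aeval_lin, aeval_lin]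
      have e1 : ∑ i, algebraMap k L (h i) * (Sum.elim (ν • u) (lam • w + μ • u) (Sum.inl i)) =
          ν * ∑ i, algebraMap k L (h i) * Sum.elim u w (Sum.inl i) := by
        rw [Finset.mul_sum]
        refine Finset.sum_congr rfl fun i _ => ?_
        simp only [Sum.elim_inl, Pi.smul_apply, smul_eq_mul]
        ring
      rw [e1, ← hexp, pow_add]
      generalize aeval (Sum.elim u w) (res F d m h) = R
      generalize (∑ i, algebraMap k L (h i) * Sum.elim u w (Sum.inl i)) = H
      rw [mul_pow, mul_pow, mul_pow, ← pow_mul, ← pow_mul]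
      ring
    · intro ν lam μ hν hlam
      rw [map_pow, (cf_borel hF u w ν lam μ hmd.le hc).2, map_pow, mul_pow, mul_pow, ← pow_mul,
        ← pow_mul, mul_comm m d]
    · intro M _ _ u' w' hi' hs'
      rw [map_pow]
      exact pow_ne_zero _ (hC0 M u' w' hi' hs')
    · rw [map_mul, map_pow, map_pow, aeval_lin]
      have : ∑ i, algebraMap k k (h i) * (Sum.elim u2 w2 (Sum.inl i)) = 0 := by
        simpa using hh
      rw [this, zero_pow (pow_ne_zero _ (by omega)), mul_zero]
  obtain ⟨u1, w1, hi1, hs1, _⟩ := exists_kpair (k := k) u w hi 1 (by simp)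
  have hc1 : ∀ j < m, aeval (Sum.elim u1 w1) (cf F j) = 0 := fun j hj => hs1 _ (hc j hj)
  have hcm : aeval (Sum.elim u1 w1) (cf F m) ≠ 0 := hno u1 w1 hi1 hs1
  obtain ⟨p, q, hpq⟩ := hi1
  by_cases hspan : ∀ r : Fin N, algebraMap k L (u1 p * w1 q - u1 q * w1 p) * u r -
      algebraMap k L (u1 p * w1 r - u1 r * w1 p) * u q +
      algebraMap k L (u1 q * w1 r - u1 r * w1 q) * u p = 0
  · -- u is in the span
    have hD : algebraMap k L (u1 p * w1 q - u1 q * w1 p) ≠ 0 := by
      rw [Ne, FaithfulSMul.algebraMap_eq_zero_iff]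
      exact hpq
    set D : L := algebraMap k L (u1 p * w1 q - u1 q * w1 p) with hDd
    set α : L := (u p * algebraMap k L (w1 q) - u q * algebraMap k L (w1 p)) / D with hα
    set β : L := (algebraMap k L (u1 p) * u q - algebraMap k L (u1 q) * u p) / D with hβ
    have hu : ∀ r, u r = α * algebraMap k L (u1 r) + β * algebraMap k L (w1 r) := by
      intro r
      rw [hα, hβ, div_mul_eq_mul_div, div_mul_eq_mul_div, ← add_div, eq_div_iff hD]
      have h1 := hspan r
      simp only [map_sub, map_mul] at h1 ⊢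
      linear_combination h1
    have hβ0 : β ≠ 0 := by
      intro h
      refine hne u1 α (funext fun r => ?_)
      rw [hu r, h, zero_mul, add_zero]
      rfl
    -- F(u) = 0
    have hFu : aeval u F = 0 := by
      have h1 := cf_expand hF u w 1 0
      rw [Finset.sum_eq_single 0] at h1
      · rw [hc 0 hm] at h1
        simpa using h1
      · intro j _ hj
        rw [zero_pow hj, mul_zero]
      · intro h; exact absurd (Finset.mem_range.2 (Nat.succ_pos _)) h
    have hF2 := cf_expand hF (fun i => algebraMap k L (u1 i)) (fun i => algebraMap k L (w1 i)) α β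
    have e2 : (fun i => α * algebraMap k L (u1 i) + β * algebraMap k L (w1 i)) = u :=
      funext fun i => (hu i).symm
    rw [e2, hFu] at hF2
    have e3 : ∀ j, aeval (Sum.elim (fun i => algebraMap k L (u1 i)) (fun i => algebraMap k L (w1 i)))
        (cf F j) = algebraMap k L (aeval (Sum.elim u1 w1) (cf F j)) := by
      intro j
      rw [← aeval_algebraMap_apply]
      congr 1
      congr 1
      funext i
      cases i <;> rfl
    simp only [e3] at hF2
    set P : Polynomial k := ∑ j ∈ Finset.range (d + 1),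
      Polynomial.C (aeval (Sum.elim u1 w1) (cf F j)) * Polynomial.X ^ (d - j) with hP
    have hP0 : P ≠ 0 := by
      intro h
      have h1 : P.coeff (d - m) = aeval (Sum.elim u1 w1) (cf F m) := by
        rw [hP, Polynomial.finsetSum_coeff, Finset.sum_eq_single m]
        · simp
        · intro j hj hjm
          rw [Finset.mem_range] at hj
          rw [Polynomial.coeff_C_mul, Polynomial.coeff_X_pow, if_neg (by omega), mul_zero]
        · intro h; exact absurd (Finset.mem_range.2 (by omega)) h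
      rw [h, Polynomial.coeff_zero] at h1
      exact hcm h1.symm
    have hPx : Polynomial.aeval (α / β) P = 0 := by
      have h1 : Polynomial.aeval (α / β) P * β ^ d = 0 := by
        rw [hP, map_sum, Finset.sum_mul]
        rw [hF2]
        refine Finset.sum_congr rfl fun j hj => ?_
        rw [Finset.mem_range] at hj
        rw [map_mul, Polynomial.aeval_C, map_pow, Polynomial.aeval_X, div_pow]
        have : β ^ d = β ^ (d - j) * β ^ j := by rw [← pow_add]; congr 1; omega
        rw [this]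
        field_simp
      exact (mul_eq_zero.1 h1).resolve_right (pow_ne_zero _ hβ0)
    obtain ⟨y, hy⟩ := RA_mem P hP0 _ hPx
    refine hne (fun i => y * u1 i + w1 i) β (funext fun r => ?_)
    rw [hu r, Pi.smul_apply, smul_eq_mul, map_add, map_mul, hy]
    field_simp
  · -- u is not in the span
    push Not at hspan
    obtain ⟨r, hr⟩ := hspan
    set δ : MvPolynomial (Fin N ⊕ Fin N) k := C (u1 p * w1 q - u1 q * w1 p) * X (Sum.inl r) -
      C (u1 p * w1 r - u1 r * w1 p) * X (Sum.inl q) +
      C (u1 q * w1 r - u1 r * w1 q) * X (Sum.inl p) with hδ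
    obtain ⟨u2, w2, hi2, hs2, hδ2⟩ := exists_kpair (k := k) u w hi δ (by
      rw [hδ, map_add, map_sub, map_mul, map_mul, map_mul, aeval_C, aeval_C, aeval_C, aeval_X,
        aeval_X, aeval_X]
      exact hr)
    rw [hδ, map_add, map_sub, map_mul, map_mul, map_mul, aeval_C, aeval_C, aeval_C, aeval_X,
        aeval_X, aeval_X] at hδ2
    obtain ⟨e, he0, he⟩ := RA_eps hmd (fun j => aeval (Sum.elim u1 w1) (cf F j)) hcm
    obtain ⟨h, h2, hw1, hu1⟩ := RA_cramer u1 w1 u2 p q r hδ2 e
    have h3 := hs1 _ (key h u2 w2 hi2 hs2 h2)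
    rw [map_mul, map_pow, map_pow, aeval_lin, aeval_res] at h3
    have e4 : ∑ i, algebraMap k k (h i) * w1 i = 1 := hw1
    have e5 : ∑ i, algebraMap k k (h i) * u1 i = -e := hu1
    have e6 : ∑ i, algebraMap k k (h i) * (Sum.elim u1 w1 (Sum.inl i)) = -e := hu1
    rw [e4, e5, e6] at h3
    rcases mul_eq_zero.1 h3 with h4 | h4
    · refine he ?_
      have h5 := pow_eq_zero_iff (by omega) |>.1 h4
      rw [← h5]
      refine Finset.sum_congr rfl fun j _ => ?_
      rw [one_pow, mul_one, neg_neg]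
    · exact neg_ne_zero.2 he0 (pow_eq_zero_iff (pow_ne_zero _ (by omega)) |>.1 h4)

end Pool.Agent.Lib.MP_1e3e9c_agL
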