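import Pool.Agent.Lib.MP_1e3e9c_agL.Defs

/-!
# JOB Td: transcendence degrees of points

PROOFS. `td_mem`: `adjoin k (range x) ≤ adjoin k (range y)`, and the transcendence degree is monotone (`IntermediateField.inclusion`, `trdeg_le_of_injective`/
`Algebra.trdeg` monotone under injective algebra maps, see Mathlib/RingTheory/AlgebraicIndependent).
`td_card`: some subset of the range of `y` is a transcendence basis (`exists_isTranscendenceBasis_subset` or similar for `IntermediateField.adjoin`), it has at most `n` elements.
`td_ge_of_indep`: an algebraically independent family inside `adjoin k (range y)` (`AlgebraicIndependent.cardinalMk_le_trdeg`; restrict the family to the subfield).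
`td_sp`: choose (basis among the generators) an injective family `s : τ → ι` such that `y ∘ s` is algebraically independent and `td k y = #τ`; then `x ∘ s` is algebraically independent:
`aeval (x ∘ s) p = aeval x (rename s p) = 0` gives `aeval (y ∘ s) p = 0`.
`td_basis`: the basis among the coordinates.
-/

set_option autoImplicit false

namespace Pool.Agent.Lib.MP_1e3e9c_agL

open MvPolynomial

theorem td_mem {k L ι κ : Type} [Field k] [Field L] [Algebra k L] {x : ι → L} {y : κ → L}
    (h : ∀ i, x i ∈ IntermediateField.adjoin k (Set.range y)) : td k x ≤ td k y := by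
  have hle : IntermediateField.adjoin k (Set.range x) ≤ IntermediateField.adjoin k (Set.range y) := by
    rw [IntermediateField.adjoin_le_iff]
    rintro _ ⟨i, rfl⟩
    exact h i
  exact trdeg_le_of_injective (IntermediateField.inclusion hle)
    (IntermediateField.inclusion hle).toRingHom.injective

/-- the field generated by `y` is algebraic over the algebra generated by `y` -/
theorem Td_alg {k L ι : Type} [Field k] [Field L] [Algebra k L] (y : ι → L) :
    Algebra.IsAlgebraic (Algebra.adjoin k (Set.range fun i =>
      (⟨y i, IntermediateField.subset_adjoin k _ ⟨i, rfl⟩⟩ :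
        IntermediateField.adjoin k (Set.range y)))) (IntermediateField.adjoin k (Set.range y)) := by
  refine ⟨?_⟩
  rintro ⟨a, ha⟩
  induction ha using IntermediateField.adjoin_induction with
  | mem x hx =>
    obtain ⟨i, rfl⟩ := hx
    exact isAlgebraic_algebraMap (⟨_, Algebra.subset_adjoin ⟨i, rfl⟩⟩ :
      Algebra.adjoin k (Set.range fun i =>
      (⟨y i, IntermediateField.subset_adjoin k _ ⟨i, rfl⟩⟩ :
        IntermediateField.adjoin k (Set.range y))))
  | algebraMap x =>
    exact isAlgebraic_algebraMap (algebraMap k (Algebra.adjoin k (Set.range fun i =>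
      (⟨y i, IntermediateField.subset_adjoin k _ ⟨i, rfl⟩⟩ :
        IntermediateField.adjoin k (Set.range y)))) x)
  | add x y hx hy h1 h2 => exact h1.add h2
  | inv x hx h1 => exact h1.inv
  | mul x y hx hy h1 h2 => exact h1.mul h2

theorem td_card {k L : Type} [Field k] [Field L] [Algebra k L] {n : ℕ} (y : Fin n → L) :
    td k y ≤ n := by
  have := Td_alg (k := k) y
  refine (Algebra.IsAlgebraic.trdeg_le_cardinalMk k (Set.range fun i =>
      (⟨y i, IntermediateField.subset_adjoin k _ ⟨i, rfl⟩⟩ :
        IntermediateField.adjoin k (Set.range y)))).trans ?_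
  refine Cardinal.mk_range_le.trans ?_
  simp

theorem td_ge_of_indep {k L ι : Type} [Field k] [Field L] [Algebra k L] {n : ℕ} {x : Fin n → L}
    {y : ι → L} (hx : AlgebraicIndependent k x)
    (h : ∀ i, x i ∈ IntermediateField.adjoin k (Set.range y)) : (n : Cardinal) ≤ td k y := by
  have h1 : AlgebraicIndependent k
      (fun i => (⟨x i, h i⟩ : IntermediateField.adjoin k (Set.range y))) :=
    AlgebraicIndependent.of_comp (IntermediateField.adjoin k (Set.range y)).val hx
  have h2 := h1.cardinalMk_le_trdeg
  simpa [td] using h2

open scoped IntermediateField.algebraAdjoinAdjoin in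
theorem Td_eq_adjoin {k L ι : Type} [Field k] [Field L] [Algebra k L] (x : ι → L) :
    td k x = Algebra.trdeg k (Algebra.adjoin k (Set.range x)) := by
  unfold td
  obtain ⟨s, hs⟩ := exists_isTranscendenceBasis k (Algebra.adjoin k (Set.range x))
  have h1 := hs.algebraMap_comp (A := IntermediateField.adjoin k (Set.range x))
  rw [← hs.cardinalMk_eq_trdeg, ← h1.cardinalMk_eq_trdeg]

/-- a transcendence basis among the coordinates -/
theorem td_basis {k L ι : Type} [Field k] [Field L] [Algebra k L] [Finite ι] (y : ι → L) :
    ∃ (n : ℕ) (s : Fin n → ι), Function.Injective s ∧ AlgebraicIndependent k (fun i => y (s i)) ∧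
      td k y = n := by
  classical
  set B := Algebra.adjoin k (Set.range y) with hB
  let yB : ι → B := fun i => ⟨y i, Algebra.subset_adjoin ⟨i, rfl⟩⟩
  have htop : Algebra.adjoin k (Set.range yB) = ⊤ := by
    have h1 : Subalgebra.map B.val (Algebra.adjoin k (Set.range yB)) = B := by
      rw [AlgHom.map_adjoin, ← Set.range_comp]
      rfl
    refine top_le_iff.1 fun b _ => ?_
    have h2 : (b : L) ∈ Subalgebra.map B.val (Algebra.adjoin k (Set.range yB)) := by
      rw [h1]
      exact b.2
    obtain ⟨c, hc, hcb⟩ := h2
    have h3 : c = b := Subtype.ext hcb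
    rw [← h3]
    exact hc
  have halg : Algebra.IsAlgebraic (Algebra.adjoin k (Set.range yB)) B := by
    refine ⟨fun b => ?_⟩
    have hb : b ∈ Algebra.adjoin k (Set.range yB) := by
      rw [htop]
      exact trivial
    exact isAlgebraic_algebraMap (⟨b, hb⟩ : Algebra.adjoin k (Set.range yB))
  obtain ⟨t, ht, hbasis⟩ := exists_isTranscendenceBasis_subset (R := k) (A := B) (Set.range yB)
  have hfin : Finite t := ((Set.finite_range yB).subset ht).to_subtype
  have : Fintype t := Fintype.ofFinite t
  let e : Fin (Fintype.card t) ≃ t := (Fintype.equivFin t).symm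
  have hex : ∀ i, ∃ j, yB j = (e i : B) := fun i => ht (e i).2
  choose s hs using hex
  refine ⟨Fintype.card t, s, ?_, ?_, ?_⟩
  · intro i j hij
    have h1 : (e i : B) = (e j : B) := by rw [← hs i, ← hs j, hij]
    exact e.injective (Subtype.ext h1)
  · have h1 : AlgebraicIndependent k (fun i => (e i : B)) :=
      hbasis.1.comp e e.injective
    have h2 := h1.map' (f := B.val) Subtype.val_injective
    have h3 : (fun i => y (s i)) = ⇑B.val ∘ fun i => (e i : B) := by
      funext i
      rw [Function.comp_apply, ← hs i]
      rfl
    rw [h3]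
    exact h2
  · rw [Td_eq_adjoin, ← hbasis.cardinalMk_eq_trdeg, Cardinal.mk_fintype]

theorem td_sp {k L L' ι : Type} [Field k] [Field L] [Algebra k L] [Field L'] [Algebra k L']
    [Finite ι] {x : ι → L} {y : ι → L'} (h : Sp k x y) : td k y ≤ td k x := by
  obtain ⟨n, s, _, hind, hn⟩ := td_basis (k := k) y
  rw [hn]
  refine td_ge_of_indep (x := fun i => x (s i)) ?_
    (fun i => IntermediateField.subset_adjoin k _ ⟨s i, rfl⟩)
  rw [algebraicIndependent_iff]
  intro p hp
  rw [algebraicIndependent_iff] at hind
  refine hind p ?_
  have h1 : aeval x (rename s p) = 0 := by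
    rw [aeval_rename]
    exact hp
  have h2 := h _ h1
  rw [aeval_rename] at h2
  exact h2

/-- the transcendence degree of a point is that of the coordinate ring of its closure -/
theorem td_ker {k L ι : Type} [Field k] [Field L] [Algebra k L] (x : ι → L) :
    td k x = Algebra.trdeg k (MvPolynomial ι k ⧸ RingHom.ker (aeval x : MvPolynomial ι k →ₐ[k] L)) := by
  rw [Td_eq_adjoin]
  have e1 : (MvPolynomial ι k ⧸ RingHom.ker (aeval x : MvPolynomial ι k →ₐ[k] L)) ≃ₐ[k]
      (aeval x : MvPolynomial ι k →ₐ[k] L).range :=
    Ideal.quotientKerEquivRange (aeval x : MvPolynomial ι k →ₐ[k] L)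
  rw [e1.trdeg_eq, Algebra.adjoin_range_eq_range_aeval]

end Pool.Agent.Lib.MP_1e3e9c_agL
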