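import Pool.Agent.Lib.MP_1e3e9c_agL.Cf
import Pool.Agent.Lib.MP_1e3e9c_agL.Const
import Pool.Agent.Lib.MP_1e3e9c_agL.Pt
import Pool.Agent.Lib.MP_1e3e9c_agL.Td

/-!
# JOB RB: the contact can be raised, fixed point

PROOF.  `u = ν₀ x`, `x` over `k`, `x ≠ 0`, `ν₀ ≠ 0`; choose a coordinate `p` with `x p ≠ 0`.  Suppose that no such pair exists; `hC0` as in `RA`: `c_m ≠ 0` at every independent
specialization over every field.  Every specialization `(u', w')` of `(u, w)` satisfies `u' q x p = u' p x q` for all `q`; so `u' p ≠ 0` if `(u', w')` is independent (else `u' = 0`).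
For `h : Fin N → k` put `D_h = lin inl ξ * lin inr h - lin inr ξ * lin inl h`, where `ξ` is the `p`-th coordinate: `D_h = X (inl p) * lin inr h - X (inr p) * lin inl h`: it is
multiplied by `ν lam` under `(u, w) ↦ (ν u, lam w + μ u)`.  `A_h = D_h ^ m * X (inl p) ^ d`, `C = cf F m * X (inl p) ^ (2 m)`: both are multiplied by `ν ^ (m + d) lam ^ m` (`cf_borel`).
`C ≠ 0` at all independent specializations.  Take an independent specialization `(u1, w1)` over `k` (`exists_kpair`, `δ = 1`).  For every `h` with `D_h(u1, w1) = 0` we get `A_h(u1, w1) = 0` (`m ≥ 1`), so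
`A_h(u, w) = 0` by `const_zero`, and `D_h(u, w) = 0` because `u p ≠ 0`.
`D_h(u, w) = ∑ h_i v_i`, `v_i = u p * w i - w p * u i`; `D_h(u1, w1) = ∑ h_i v1_i`, `v1_i = u1 p * w1 i - w1 p * u1 i`, over `k`, `v1 ≠ 0` (else `(u1, w1)` is not independent).  With `q` such that `v1 q ≠ 0` and
`h = v1 i • e_q - v1 q • e_i`: `v1 i * v q = v1 q * v i`.  So `v = t v1` with `t = v q / v1 q ∈ L`.  Hence all coordinates `u i = ν₀ x i`, `w i = (v i + w p * u i) / u p = (t v1 i + w p ν₀ x i) / (ν₀ x p)` lie in
the field generated over `k` by the three elements `ν₀`, `t`, `w p`: `td k (u, w) ≤ 3` (`td_mem`, `td_card`), contradiction to `h4`.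
-/

set_option autoImplicit false

namespace Pool.Agent.Lib.MP_1e3e9c_agL

open MvPolynomial

theorem contact_step_b {k L : Type} [Field k] [IsAlgClosed k] [Field L] [Algebra k L] {N d m : ℕ}
    (hm : 1 ≤ m) (hmd : m < d) {F : MvPolynomial (Fin N) k} (hF : F.IsHomogeneous d)
    (u w : Fin N → L) (hi : Ind u w) (hB : BSt k u w)
    (hc : ∀ j < m, aeval (Sum.elim u w) (cf F j) = 0)
    (x : Fin N → k) (ν₀ : L) (hu : u = ν₀ • (fun i => algebraMap k L (x i)))
    (h4 : (4 : Cardinal) ≤ td k (Sum.elim u w)) :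
    ∃ u' w' : Fin N → k, Ind u' w' ∧ Sp k (Sum.elim u w) (Sum.elim u' w') ∧
      aeval (Sum.elim u' w') (cf F m) = 0 := by
  by_contra hcon
  -- `c_m` does not vanish at any independent specialization
  have hC0 : ∀ (M : Type) [Field M] [Algebra k M] (u' w' : Fin N → M), Ind u' w' →
      Sp k (Sum.elim u w) (Sum.elim u' w') → aeval (Sum.elim u' w') (cf F m) ≠ 0 := by
    intro M _ _ u' w' hi' hs' h0
    obtain ⟨u2, w2, hi2, hs2, -⟩ := exists_kpair (k := k) u' w' hi' 1 (by
      rw [map_one]
      exact one_ne_zero)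
    exact hcon ⟨u2, w2, hi2, hs'.trans hs2, hs2 _ h0⟩
  have huq : ∀ i, u i = ν₀ * algebraMap k L (x i) := by
    intro i
    rw [hu]
    rfl
  obtain ⟨p, hup⟩ : ∃ p, u p ≠ 0 := by
    by_contra hall
    push Not at hall
    exact (ind_ne hi).1 (funext hall)
  have hν₀ : ν₀ ≠ 0 := by
    intro h0
    apply hup
    rw [huq, h0, zero_mul]
  have hxp' : algebraMap k L (x p) ≠ 0 := by
    intro h0
    apply hup
    rw [huq, h0, mul_zero]
  have hxp : x p ≠ 0 := by
    intro h0
    apply hxp'
    rw [h0, map_zero]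
  -- the first vector of a specialization is proportional to `x`
  have hprop : ∀ (M : Type) [Field M] [Algebra k M] (u' w' : Fin N → M),
      Sp k (Sum.elim u w) (Sum.elim u' w') → ∀ q,
        algebraMap k M (x p) * u' q = algebraMap k M (x q) * u' p := by
    intro M _ _ u' w' hs' q
    have h1 := hs' (C (x p) * X (Sum.inl q) - C (x q) * X (Sum.inl p)) (by
      simp only [map_sub, map_mul, aeval_X, Sum.elim_inl, algHom_C]
      rw [huq q, huq p]
      ring)
    simp only [map_sub, map_mul, aeval_X, Sum.elim_inl, algHom_C] at h1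
    exact sub_eq_zero.1 h1
  have hup' : ∀ (M : Type) [Field M] [Algebra k M] (u' w' : Fin N → M), Ind u' w' →
      Sp k (Sum.elim u w) (Sum.elim u' w') → u' p ≠ 0 := by
    intro M _ _ u' w' hi' hs' h0
    apply (ind_ne hi').1
    funext q
    have h1 := hprop M u' w' hs' q
    rw [h0, mul_zero] at h1
    have h2 : algebraMap k M (x p) ≠ 0 := by
      rw [Ne, map_eq_zero]
      exact hxp
    exact (mul_eq_zero.1 h1).resolve_left h2
  -- the forms `D_h`
  have hD : ∀ (M : Type) [Field M] [Algebra k M] (u' w' : Fin N → M) (h : Fin N → k),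
      aeval (Sum.elim u' w') (X (Sum.inl p) * lin Sum.inr h - X (Sum.inr p) * lin Sum.inl h :
        MvPolynomial (Fin N ⊕ Fin N) k) =
        ∑ i, algebraMap k M (h i) * (u' p * w' i - w' p * u' i) := by
    intro M _ _ u' w' h
    rw [map_sub, map_mul, map_mul, aeval_lin, aeval_lin, aeval_X, aeval_X, Finset.mul_sum,
      Finset.mul_sum, ← Finset.sum_sub_distrib]
    refine Finset.sum_congr rfl fun i _ => ?_
    simp only [Sum.elim_inl, Sum.elim_inr]
    ring
  obtain ⟨u1, w1, hi1, hs1, -⟩ := exists_kpair (k := k) u w hi 1 (by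
    rw [map_one]
    exact one_ne_zero)
  have hkey : ∀ h : Fin N → k, ∑ i, h i * (u1 p * w1 i - w1 p * u1 i) = 0 →
      ∑ i, algebraMap k L (h i) * (u p * w i - w p * u i) = 0 := by
    intro h hh
    have h1 := const_zero u w hi (fun ν lam μ _ _ => hB L u w ν lam μ (Sp.refl _))
      ((X (Sum.inl p) * lin Sum.inr h - X (Sum.inr p) * lin Sum.inl h) ^ m * X (Sum.inl p) ^ d)
      (cf F m * X (Sum.inl p) ^ (2 * m)) (m + d) m (by
        intro ν lam μ _ _
        rw [map_mul, map_pow, map_pow, hD, map_mul, map_pow, map_pow, hD, aeval_X, aeval_X]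
        have h2 : ∑ i, algebraMap k L (h i) * ((ν • u) p * (lam • w + μ • u) i -
            (lam • w + μ • u) p * (ν • u) i) =
            (ν * lam) * ∑ i, algebraMap k L (h i) * (u p * w i - w p * u i) := by
          rw [Finset.mul_sum]
          refine Finset.sum_congr rfl fun i _ => ?_
          simp only [Pi.smul_apply, Pi.add_apply, smul_eq_mul]
          ring
        rw [h2]
        simp only [Sum.elim_inl, Pi.smul_apply, smul_eq_mul]
        rw [mul_pow, mul_pow, mul_pow, pow_add]
        ring) (by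
        intro ν lam μ _ _
        rw [map_mul, map_pow, map_mul, map_pow, aeval_X, aeval_X,
          (cf_borel hF u w ν lam μ hmd.le hc).2]
        simp only [Sum.elim_inl, Pi.smul_apply, smul_eq_mul]
        have h3 : ν ^ (m + d) = ν ^ (d - m) * ν ^ (2 * m) := by
          rw [← pow_add]
          congr 1
          omega
        rw [mul_pow, h3]
        ring) (by
        intro M _ _ u' w' hi' hs'
        rw [map_mul, map_pow, aeval_X]
        exact mul_ne_zero (hC0 M u' w' hi' hs') (pow_ne_zero _ (hup' M u' w' hi' hs')))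
      u1 w1 hi1 hs1 (by
        rw [map_mul, map_pow, hD]
        have h4 : ∑ i, algebraMap k k (h i) * (u1 p * w1 i - w1 p * u1 i) = 0 := hh
        rw [h4, zero_pow (by omega), zero_mul])
    rw [map_mul, map_pow, hD, map_pow, aeval_X] at h1
    rcases mul_eq_zero.1 h1 with h2 | h2
    · exact pow_eq_zero_iff (by omega) |>.1 h2
    · exact absurd h2 (pow_ne_zero _ hup)
  have hu1p : u1 p ≠ 0 := hup' k u1 w1 hi1 hs1
  obtain ⟨q, hq⟩ : ∃ q, u1 p * w1 q - w1 p * u1 q ≠ 0 := by
    by_contra hall
    push Not at hall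
    obtain ⟨a, b, hab⟩ := hi1
    apply hab
    have h1 := hall a
    have h2 := hall b
    have h3 : u1 p * (u1 a * w1 b - u1 b * w1 a) = 0 := by
      linear_combination u1 a * h2 - u1 b * h1
    exact (mul_eq_zero.1 h3).resolve_left hu1p
  have hq' : algebraMap k L (u1 p * w1 q - w1 p * u1 q) ≠ 0 := by
    rw [Ne, map_eq_zero]
    exact hq
  have hv : ∀ i, algebraMap k L (u1 p * w1 i - w1 p * u1 i) * (u p * w q - w p * u q) =
      algebraMap k L (u1 p * w1 q - w1 p * u1 q) * (u p * w i - w p * u i) := by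
    intro i
    have h1 := hkey (fun j => (if j = q then u1 p * w1 i - w1 p * u1 i else 0) -
      (if j = i then u1 p * w1 q - w1 p * u1 q else 0)) (by
        simp only [sub_mul, ite_mul, zero_mul, Finset.sum_sub_distrib, Finset.sum_ite_eq',
          Finset.mem_univ, if_true]
        ring)
    have h2 : ∀ j, algebraMap k L ((if j = q then u1 p * w1 i - w1 p * u1 i else 0) -
      (if j = i then u1 p * w1 q - w1 p * u1 q else 0)) =
      (if j = q then algebraMap k L (u1 p * w1 i - w1 p * u1 i) else 0) -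
      (if j = i then algebraMap k L (u1 p * w1 q - w1 p * u1 q) else 0) := by
      intro j
      rw [map_sub]
      congr 1
      · split_ifs
        · rfl
        · exact map_zero _
      · split_ifs
        · rfl
        · exact map_zero _
    simp only [h2] at h1
    rw [Finset.sum_congr rfl (fun j _ => sub_mul _ _ _), Finset.sum_sub_distrib] at h1
    simp only [ite_mul, zero_mul, Finset.sum_ite_eq', Finset.mem_univ, if_true] at h1
    exact sub_eq_zero.1 h1
  -- the field generated by three elements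
  set t : L := (u p * w q - w p * u q) / algebraMap k L (u1 p * w1 q - w1 p * u1 q) with ht
  have hvt : ∀ i, u p * w i - w p * u i = t * algebraMap k L (u1 p * w1 i - w1 p * u1 i) := by
    intro i
    rw [ht, div_mul_eq_mul_div, eq_div_iff hq', mul_comm (u p * w i - w p * u i), ← hv i, mul_comm]
  have hmem0 : ν₀ ∈ IntermediateField.adjoin k (Set.range ![ν₀, t, w p]) :=
    IntermediateField.subset_adjoin _ _ ⟨0, rfl⟩
  have hmem1 : t ∈ IntermediateField.adjoin k (Set.range ![ν₀, t, w p]) :=
    IntermediateField.subset_adjoin _ _ ⟨1, rfl⟩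
  have hmem2 : w p ∈ IntermediateField.adjoin k (Set.range ![ν₀, t, w p]) :=
    IntermediateField.subset_adjoin _ _ ⟨2, rfl⟩
  have hmemk : ∀ a : k, algebraMap k L a ∈ IntermediateField.adjoin k (Set.range ![ν₀, t, w p]) :=
    fun a => IntermediateField.algebraMap_mem _ a
  have hmemu : ∀ i, u i ∈ IntermediateField.adjoin k (Set.range ![ν₀, t, w p]) := by
    intro i
    rw [huq]
    exact mul_mem hmem0 (hmemk _)
  have hmemw : ∀ i, w i ∈ IntermediateField.adjoin k (Set.range ![ν₀, t, w p]) := by
    intro i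
    have h1 : w i = (t * algebraMap k L (u1 p * w1 i - w1 p * u1 i) + w p * u i) / u p := by
      rw [eq_div_iff hup, ← hvt i]
      ring
    rw [h1]
    exact div_mem (add_mem (mul_mem hmem1 (hmemk _)) (mul_mem hmem2 (hmemu i))) (hmemu p)
  have h5 : td k (Sum.elim u w) ≤ td k ![ν₀, t, w p] := by
    refine td_mem ?_
    rintro (i | i)
    · exact hmemu i
    · exact hmemw i
  have h6 : td k ![ν₀, t, w p] ≤ ((3 : ℕ) : Cardinal) := td_card _
  have h7 : (4 : Cardinal) ≤ ((3 : ℕ) : Cardinal) := h4.trans (h5.trans h6)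
  have h8 : ((4 : ℕ) : Cardinal) ≤ ((3 : ℕ) : Cardinal) := by
    simpa using h7
  have h9 := Nat.cast_le.1 h8
  omega

end Pool.Agent.Lib.MP_1e3e9c_agL
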