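import Pool.Agent.Lib.MP_1e3e9c_agL.Cf

/-!
# JOB Res: the resultant of a linear form and the residual form

PROOF of `res_borel`.  `H = ∑ h_i u_i`, `H' = ∑ h_i w_i` (mapped to `L`).  `aeval (u, w) (res F d m h) = ∑_(m ≤ j ≤ d) c_j(u, w) H' ^ (d - j) (-H) ^ (j - m)` (`aeval_lin`).
`res_mul`: if `c_j(u, w) = 0` for `j < m`, then by `cf_expand` (with `a = H'`, `b = -H`) `(-H) ^ m * Res = F(H' u - H w)`.
For the pair `(ν u, lam w + μ u)` the numbers are `ν H`, `lam H' + μ H`, and `(lam H' + μ H) ν u - ν H (lam w + μ u) = ν lam (H' u - H w)`, so `F(..)` is multiplied by `(ν lam) ^ d`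
(homogeneity: `IsHomogeneous.eval₂`/`aeval` of a multiple: `MvPolynomial.IsHomogeneous` smul lemma; or `cf_expand`-free: `F (t x) = t ^ d F x`).
If `H ≠ 0`: divide by `(-ν H) ^ m`.  If `H = 0`: only `j = m` remains in the sum: `Res = c_m H' ^ (d - m)`, and `cf_borel`.
-/

set_option autoImplicit false

namespace Pool.Agent.Lib.MP_1e3e9c_agL

open MvPolynomial

/-- the resultant of the linear form `h` and of the form `F / b ^ m` on the line through `u` and `w` -/
noncomputable def res {k : Type} [Field k] {N : ℕ} (F : MvPolynomial (Fin N) k) (d m : ℕ)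
    (h : Fin N → k) : MvPolynomial (Fin N ⊕ Fin N) k :=
  ∑ j ∈ Finset.Icc m d, cf F j * (lin Sum.inr h) ^ (d - j) * (-(lin Sum.inl h)) ^ (j - m)

theorem aeval_res {k L : Type} [Field k] [Field L] [Algebra k L] {N : ℕ}
    (F : MvPolynomial (Fin N) k) (d m : ℕ) (h : Fin N → k) (u w : Fin N → L) :
    aeval (Sum.elim u w) (res F d m h) = ∑ j ∈ Finset.Icc m d, aeval (Sum.elim u w) (cf F j) *
      (∑ i, algebraMap k L (h i) * w i) ^ (d - j) * (-(∑ i, algebraMap k L (h i) * u i)) ^ (j - m) := by
  unfold res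
  rw [map_sum]
  refine Finset.sum_congr rfl fun j _ => ?_
  rw [map_mul, map_mul, map_pow, map_pow, map_neg, aeval_lin, aeval_lin]
  simp only [Sum.elim_inl, Sum.elim_inr]

private theorem Res_smul {k L : Type} [Field k] [Field L] [Algebra k L] {N d : ℕ}
    {F : MvPolynomial (Fin N) k} (hF : F.IsHomogeneous d) (t : L) (x : Fin N → L) :
    aeval (fun i => t * x i) F = t ^ d * aeval x F := by
  rw [aeval_def, aeval_def, eval₂_eq', eval₂_eq', Finset.mul_sum]
  refine Finset.sum_congr rfl fun s hs => ?_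
  have h1 : ∑ i, s i = d := by
    have h2 := hF (mem_support_iff.1 hs)
    rw [← h2, Finsupp.weight_apply, Finsupp.sum_fintype _ _ (by simp)]
    simp
  have h3 : ∏ i, (t * x i) ^ s i = t ^ d * ∏ i, x i ^ s i := by
    rw [← h1, ← Finset.prod_pow_eq_pow_sum, ← Finset.prod_mul_distrib]
    refine Finset.prod_congr rfl fun i _ => ?_
    rw [mul_pow]
  rw [h3]
  ring

private theorem Res_mul {k L : Type} [Field k] [Field L] [Algebra k L] {N d m : ℕ}
    {F : MvPolynomial (Fin N) k} (hF : F.IsHomogeneous d) (h : Fin N → k)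
    (u w : Fin N → L) (hc : ∀ j < m, aeval (Sum.elim u w) (cf F j) = 0) :
    (-(∑ i, algebraMap k L (h i) * u i)) ^ m * aeval (Sum.elim u w) (res F d m h) =
      aeval (fun i => (∑ i, algebraMap k L (h i) * w i) * u i +
        (-(∑ i, algebraMap k L (h i) * u i)) * w i) F := by
  rw [cf_expand hF u w, aeval_res, Finset.mul_sum]
  have hsub : Finset.Icc m d ⊆ Finset.range (d + 1) := by
    intro j hj
    rw [Finset.mem_Icc] at hj
    rw [Finset.mem_range]
    omega
  rw [← Finset.sum_subset hsub (f := fun j => aeval (Sum.elim u w) (cf F j) *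
    (∑ i, algebraMap k L (h i) * w i) ^ (d - j) * (-(∑ i, algebraMap k L (h i) * u i)) ^ j)]
  · refine Finset.sum_congr rfl fun j hj => ?_
    rw [Finset.mem_Icc] at hj
    have h1 : (-(∑ i, algebraMap k L (h i) * u i)) ^ j =
        (-(∑ i, algebraMap k L (h i) * u i)) ^ m *
          (-(∑ i, algebraMap k L (h i) * u i)) ^ (j - m) := by
      rw [← pow_add]
      congr 1
      omega
    rw [h1]
    ring
  · intro j hj hj'
    rw [Finset.mem_range] at hj
    rw [Finset.mem_Icc] at hj'
    have h2 : j < m := by omega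
    show aeval (Sum.elim u w) (cf F j) * _ * _ = 0
    rw [hc j h2, zero_mul, zero_mul]

theorem res_borel {k L : Type} [Field k] [Field L] [Algebra k L] {N d m : ℕ}
    {F : MvPolynomial (Fin N) k} (hF : F.IsHomogeneous d) (hm : m ≤ d) (h : Fin N → k)
    (u w : Fin N → L) (hc : ∀ j < m, aeval (Sum.elim u w) (cf F j) = 0) (ν lam μ : L)
    (hν : ν ≠ 0) (hlam : lam ≠ 0) :
    aeval (Sum.elim (ν • u) (lam • w + μ • u)) (res F d m h) =
      ν ^ (d - m) * lam ^ d * aeval (Sum.elim u w) (res F d m h) := by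
  have hb := cf_borel hF u w ν lam μ hm hc
  set H : L := ∑ i, algebraMap k L (h i) * u i with hH
  set H' : L := ∑ i, algebraMap k L (h i) * w i with hH'
  have e1 : ∑ i, algebraMap k L (h i) * (ν • u) i = ν * H := by
    rw [hH, Finset.mul_sum]
    refine Finset.sum_congr rfl fun i _ => ?_
    rw [Pi.smul_apply, smul_eq_mul]
    ring
  have e2 : ∑ i, algebraMap k L (h i) * (lam • w + μ • u) i = lam * H' + μ * H := by
    rw [hH, hH', Finset.mul_sum, Finset.mul_sum, ← Finset.sum_add_distrib]
    refine Finset.sum_congr rfl fun i _ => ?_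
    rw [Pi.add_apply, Pi.smul_apply, Pi.smul_apply, smul_eq_mul, smul_eq_mul]
    ring
  by_cases h0 : H = 0
  · have f1 : aeval (Sum.elim u w) (res F d m h) = aeval (Sum.elim u w) (cf F m) * H' ^ (d - m) := by
      rw [aeval_res, ← hH, ← hH', h0, Finset.sum_eq_single m]
      · rw [Nat.sub_self, pow_zero, mul_one]
      · intro j hj hjm
        rw [Finset.mem_Icc] at hj
        rw [neg_zero, zero_pow (by omega), mul_zero]
      · intro hj
        rw [Finset.mem_Icc] at hj
        exact absurd ⟨le_refl m, hm⟩ hj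
    have f2 : aeval (Sum.elim (ν • u) (lam • w + μ • u)) (res F d m h) =
        aeval (Sum.elim (ν • u) (lam • w + μ • u)) (cf F m) * (lam * H') ^ (d - m) := by
      rw [aeval_res, e1, e2, h0, mul_zero, mul_zero, add_zero, Finset.sum_eq_single m]
      · rw [Nat.sub_self, pow_zero, mul_one]
      · intro j hj hjm
        rw [Finset.mem_Icc] at hj
        rw [neg_zero, zero_pow (by omega), mul_zero]
      · intro hj
        rw [Finset.mem_Icc] at hj
        exact absurd ⟨le_refl m, hm⟩ hj
    have f3 : lam ^ d = lam ^ m * lam ^ (d - m) := by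
      rw [← pow_add]
      congr 1
      omega
    rw [f1, f2, hb.2, f3, mul_pow]
    ring
  · have g1 := Res_mul hF h u w hc
    have g2 := Res_mul hF h (ν • u) (lam • w + μ • u) hb.1
    rw [e1, e2] at g2
    rw [← hH, ← hH'] at g1
    have g3 : (fun i => (lam * H' + μ * H) * (ν • u) i + (-(ν * H)) * (lam • w + μ • u) i) =
        fun i => (ν * lam) * (H' * u i + (-H) * w i) := by
      funext i
      rw [Pi.add_apply, Pi.smul_apply, Pi.smul_apply, Pi.smul_apply, smul_eq_mul, smul_eq_mul,
        smul_eq_mul]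
      ring
    rw [g3, Res_smul hF, ← g1] at g2
    have g4 : ν ^ d = ν ^ m * ν ^ (d - m) := by
      rw [← pow_add]
      congr 1
      omega
    have g5 : (-(ν * H)) ^ m ≠ 0 := pow_ne_zero _ (neg_ne_zero.2 (mul_ne_zero hν h0))
    refine mul_left_cancel₀ g5 ?_
    rw [g2, mul_pow, g4]
    have g6 : (-(ν * H)) ^ m = ν ^ m * (-H) ^ m := by
      rw [← mul_pow]
      congr 1
      ring
    rw [g6]
    ring

end Pool.Agent.Lib.MP_1e3e9c_agL
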