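import Pool.Agent.Lib.MP_1e3e9c_agL.Defs

/-!
# JOB Trans: generic translates

PROOF of `exists_gl`: `L' = FractionRing (MvPolynomial (Fin 4) L)`, `g = (g 0, g 1, g 2, g 3)` the images of the variables (algebraically independent over `L`).
Let `u'' = g 0 • u + g 1 • w`, `w'' = g 2 • u + g 3 • w` (with `u`, `w` mapped to `L'`).
(a) `Sp κ (u'', w'') (u, w)`: `p(u'', w'') = 0` means that the polynomial `p(g 0 u + g 1 w, g 2 u + g 3 w)` in `MvPolynomial (Fin 4) L` is zero; evaluate at `g = (1, 0, 0, 1)`.
(b) `GSt`: for `p : MvPolynomial (Fin N ⊕ Fin N) κ` let `p̂ : MvPolynomial (Fin 4) (MvPolynomial (Fin N ⊕ Fin N) κ)` be `p` at `(X 0 U + X 1 W, X 2 U + X 3 W)`,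
so `p̂ = ∑_e X ^ e p_e` with `p_e` polynomials in `U`, `W`.  If `p(u'', w'') = 0` then `p (h (u'', w'')) = 0` for the matrix `h` of four further indeterminates over `L'`
(the product `h g` is a specialization of `g` over `L`: substitute `g ↦ h g` in the zero polynomial of (a)); this is `p̂` with its coefficients evaluated at `(u'', w'')`, so all `p_e (u'', w'') = 0`.  Hence
for every specialization `(u', w')` of `(u'', w'')` over a field `M` all `p_e (u', w') = 0`, and so `p (a u' + b w', c u' + e w') = ∑ p_e (u', w') a ^ .. = 0`.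
(c) `exists_borel`: the same with `g 1 = 0` and three indeterminates `ν = g 0`, `μ = g 1`, `lam = g 2`.
-/

set_option autoImplicit false

namespace Pool.Agent.Lib.MP_1e3e9c_agL

open MvPolynomial

theorem Trans_key {κ L L' : Type} [Field κ] [Field L] [Algebra κ L] [Field L'] [Algebra κ L']
    [Algebra L L'] [IsScalarTower κ L L'] {N : ℕ} (u w : Fin N → L) (g : Fin 4 → L')
    (hg : AlgebraicIndependent L g) (p : MvPolynomial (Fin N ⊕ Fin N) κ)
    (hp : aeval (Sum.elim
        (g 0 • (fun i => algebraMap L L' (u i)) + g 1 • (fun i => algebraMap L L' (w i)))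
        (g 2 • (fun i => algebraMap L L' (u i)) + g 3 • (fun i => algebraMap L L' (w i)))) p = 0)
    {K : Type} [Field K] [Algebra κ K] [Algebra L K] [IsScalarTower κ L K] (y : Fin 4 → K) :
    aeval (Sum.elim
        (y 0 • (fun i => algebraMap L K (u i)) + y 1 • (fun i => algebraMap L K (w i)))
        (y 2 • (fun i => algebraMap L K (u i)) + y 3 • (fun i => algebraMap L K (w i)))) p = 0 := by
  let q : MvPolynomial (Fin 4) L := aeval (R := κ) (Sum.elim
    (fun i => X 0 * C (u i) + X 1 * C (w i)) (fun i => X 2 * C (u i) + X 3 * C (w i))) p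
  have key : ∀ {M : Type} [Field M] [Algebra κ M] [Algebra L M] [IsScalarTower κ L M]
      (z : Fin 4 → M), aeval z q = aeval (Sum.elim
        (z 0 • (fun i => algebraMap L M (u i)) + z 1 • (fun i => algebraMap L M (w i)))
        (z 2 • (fun i => algebraMap L M (u i)) + z 3 • (fun i => algebraMap L M (w i)))) p := by
    intro M _ _ _ _ z
    change ((aeval z : MvPolynomial (Fin 4) L →ₐ[L] M).restrictScalars κ) (aeval _ p) = _
    rw [← AlgHom.comp_apply, comp_aeval]
    congr 2
    funext i
    rcases i with i | i <;> simp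
  have hq : q = 0 := by
    apply hg
    rw [key, hp, map_zero]
  rw [← key, hq, map_zero]

/-- the polynomial `p` at the product of a matrix of indeterminates and the matrix with the rows `U`, `W` -/
noncomputable def Trans_hat {κ : Type} [Field κ] {N : ℕ} (p : MvPolynomial (Fin N ⊕ Fin N) κ) :
    MvPolynomial (Fin 4) (MvPolynomial (Fin N ⊕ Fin N) κ) :=
  aeval (Sum.elim (fun i => X 0 * C (X (Sum.inl i)) + X 1 * C (X (Sum.inr i)))
    (fun i => X 2 * C (X (Sum.inl i)) + X 3 * C (X (Sum.inr i)))) p

theorem Trans_hat_eval {κ M : Type} [Field κ] [Field M] [Algebra κ M] {N : ℕ}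
    (p : MvPolynomial (Fin N ⊕ Fin N) κ) (u w : Fin N → M) (y : Fin 4 → M) :
    eval y (map (aeval (Sum.elim u w) : MvPolynomial (Fin N ⊕ Fin N) κ →ₐ[κ] M).toRingHom
      (Trans_hat p)) = aeval (Sum.elim (y 0 • u + y 1 • w) (y 2 • u + y 3 • w)) p := by
  let Φ : MvPolynomial (Fin 4) (MvPolynomial (Fin N ⊕ Fin N) κ) →ₐ[κ] M :=
    { (eval y).comp (map (aeval (Sum.elim u w) :
        MvPolynomial (Fin N ⊕ Fin N) κ →ₐ[κ] M).toRingHom) with
      commutes' := fun a => by
        have e : algebraMap κ (MvPolynomial (Fin 4) (MvPolynomial (Fin N ⊕ Fin N) κ)) a =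
            C (C a) := rfl
        simp [e] }
  change Φ (aeval _ p) = _
  rw [← AlgHom.comp_apply, comp_aeval]
  congr 2
  funext i
  rcases i with i | i <;> simp [Φ]

theorem exists_gl {κ L : Type} [Field κ] [Field L] [Algebra κ L] {N : ℕ} (u w : Fin N → L) :
    ∃ (L' : Type) (_ : Field L') (_ : Algebra κ L') (_ : Algebra L L') (_ : IsScalarTower κ L L')
      (g : Fin 4 → L'), AlgebraicIndependent L g ∧
      GSt κ (g 0 • (fun i => algebraMap L L' (u i)) + g 1 • (fun i => algebraMap L L' (w i)))
        (g 2 • (fun i => algebraMap L L' (u i)) + g 3 • (fun i => algebraMap L L' (w i))) ∧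
      Sp κ (Sum.elim
        (g 0 • (fun i => algebraMap L L' (u i)) + g 1 • (fun i => algebraMap L L' (w i)))
        (g 2 • (fun i => algebraMap L L' (u i)) + g 3 • (fun i => algebraMap L L' (w i))))
        (Sum.elim u w) := by
  let L' : Type := FractionRing (MvPolynomial (Fin 4) L)
  let _ : Field L' := inferInstanceAs (Field (FractionRing (MvPolynomial (Fin 4) L)))
  let _ : Algebra κ L' := inferInstanceAs (Algebra κ (FractionRing (MvPolynomial (Fin 4) L)))
  let _ : Algebra L L' := inferInstanceAs (Algebra L (FractionRing (MvPolynomial (Fin 4) L)))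
  have _ : IsScalarTower κ L L' :=
    inferInstanceAs (IsScalarTower κ L (FractionRing (MvPolynomial (Fin 4) L)))
  have _ : Infinite L' := Infinite.of_injective
    (algebraMap (MvPolynomial (Fin 4) L) (FractionRing (MvPolynomial (Fin 4) L)))
    (IsFractionRing.injective _ _)
  let g : Fin 4 → L' := fun i => algebraMap (MvPolynomial (Fin 4) L) (FractionRing _) (X i)
  have hg : AlgebraicIndependent L g :=
    (MvPolynomial.algebraicIndependent_X (Fin 4) L).map' (f := IsScalarTower.toAlgHom L
      (MvPolynomial (Fin 4) L) (FractionRing (MvPolynomial (Fin 4) L)))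
      (IsFractionRing.injective _ _)
  refine ⟨L', inferInstance, inferInstance, inferInstance, inferInstance, g, hg, ?_, ?_⟩
  · intro M _ _ u' w' a b c e hs p hp
    set u2 := g 0 • (fun i => algebraMap L L' (u i)) + g 1 • (fun i => algebraMap L L' (w i))
      with hu2
    set w2 := g 2 • (fun i => algebraMap L L' (u i)) + g 3 • (fun i => algebraMap L L' (w i))
      with hw2
    have h1 : map (aeval (Sum.elim u2 w2) :
        MvPolynomial (Fin N ⊕ Fin N) κ →ₐ[κ] L').toRingHom (Trans_hat p) = 0 := by
      apply MvPolynomial.funext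
      intro y
      rw [Trans_hat_eval, map_zero]
      have h2 := Trans_key u w g hg p hp (K := L') ![y 0 * g 0 + y 1 * g 2,
        y 0 * g 1 + y 1 * g 3, y 2 * g 0 + y 3 * g 2, y 2 * g 1 + y 3 * g 3]
      rw [← h2]
      congr 2
      have e0 : y 0 • u2 + y 1 • w2 = (y 0 * g 0 + y 1 * g 2) • (fun i => algebraMap L L' (u i)) +
          (y 0 * g 1 + y 1 * g 3) • (fun i => algebraMap L L' (w i)) := by
        rw [hu2, hw2]
        funext i
        simp only [Pi.add_apply, Pi.smul_apply, smul_eq_mul]
        ring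
      have e1 : y 2 • u2 + y 3 • w2 = (y 2 * g 0 + y 3 * g 2) • (fun i => algebraMap L L' (u i)) +
          (y 2 * g 1 + y 3 * g 3) • (fun i => algebraMap L L' (w i)) := by
        rw [hu2, hw2]
        funext i
        simp only [Pi.add_apply, Pi.smul_apply, smul_eq_mul]
        ring
      rw [e0, e1]
      rfl
    have h3 := Trans_hat_eval p u' w' ![a, b, c, e]
    have h4 : map (aeval (Sum.elim u' w') :
        MvPolynomial (Fin N ⊕ Fin N) κ →ₐ[κ] M).toRingHom (Trans_hat p) = 0 := by
      ext m
      rw [coeff_map, coeff_zero]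
      refine hs _ ?_
      have h5 := congrArg (coeff m) h1
      rwa [coeff_map, coeff_zero] at h5
    rw [h4, map_zero] at h3
    exact h3.symm
  · intro p hp
    have h1 := Trans_key u w g hg p hp (K := L) ![1, 0, 0, 1]
    have e : ∀ v : Fin N → L, (fun i => algebraMap L L (v i)) = v := fun v => rfl
    simpa [e] using h1

private theorem hom_aeval {κ R S ι : Type} [Field κ] [CommRing R] [Algebra κ R] [CommRing S]
    [Algebra κ S] (φ : R →+* S) (hφ : ∀ a, φ (algebraMap κ R a) = algebraMap κ S a)
    (z : ι → R) (z' : ι → S) (hz : ∀ i, φ (z i) = z' i) (p : MvPolynomial ι κ) :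
    φ (aeval z p) = aeval z' p := by
  induction p using MvPolynomial.induction_on with
  | C a => rw [aeval_C, aeval_C, hφ]
  | add p q hp hq => rw [map_add, map_add, hp, hq, map_add]
  | mul_X p i hp => rw [map_mul, map_mul, hp, map_mul, aeval_X, aeval_X, hz]

/-- the polynomial `p` at `(X 0 U, X 2 W + X 1 U)` -/
private noncomputable def bHat {κ : Type} [Field κ] {N : ℕ} (p : MvPolynomial (Fin N ⊕ Fin N) κ) :
    MvPolynomial (Fin 3) (MvPolynomial (Fin N ⊕ Fin N) κ) :=
  aeval (Sum.elim (fun i => X 0 * C (X (Sum.inl i)))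
    (fun i => X 2 * C (X (Sum.inr i)) + X 1 * C (X (Sum.inl i)))) p

/-- the point `(X 0 U, X 2 W + X 1 U)` for given `U`, `W` -/
private noncomputable def bPt {R : Type} [Field R] {N : ℕ} (u w : Fin N → R) :
    Fin N ⊕ Fin N → MvPolynomial (Fin 3) R :=
  Sum.elim (fun i => X 0 * C (u i)) (fun i => X 2 * C (w i) + X 1 * C (u i))

private theorem map_bHat {κ R : Type} [Field κ] [Field R] [Algebra κ R] {N : ℕ}
    (p : MvPolynomial (Fin N ⊕ Fin N) κ) (u w : Fin N → R) :
    MvPolynomial.map ((aeval (Sum.elim u w) : MvPolynomial (Fin N ⊕ Fin N) κ →ₐ[κ] R) :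
      MvPolynomial (Fin N ⊕ Fin N) κ →+* R) (bHat p) = aeval (bPt u w) p := by
  refine hom_aeval _ ?_ _ _ ?_ p
  · intro a
    rw [MvPolynomial.algebraMap_apply, MvPolynomial.algebraMap_apply, map_C]
    exact congrArg C ((aeval (Sum.elim u w) : MvPolynomial (Fin N ⊕ Fin N) κ →ₐ[κ] R).commutes a)
  · rintro (i | i)
    · simp [bPt]
    · simp [bPt]

private theorem aeval_bPt {κ R : Type} [Field κ] [Field R] [Algebra κ R] {N : ℕ}
    (u w : Fin N → R) (t : Fin 3 → R) (p : MvPolynomial (Fin N ⊕ Fin N) κ) :
    aeval t (aeval (bPt u w) p) = aeval (Sum.elim (t 0 • u) (t 2 • w + t 1 • u)) p := by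
  refine hom_aeval ((aeval t : MvPolynomial (Fin 3) R →ₐ[R] R) : MvPolynomial (Fin 3) R →+* R)
    ?_ _ _ ?_ p
  · intro a
    rw [MvPolynomial.algebraMap_apply]
    exact (aeval t : MvPolynomial (Fin 3) R →ₐ[R] R).commutes _
  · rintro (i | i)
    · simp [bPt]
    · simp [bPt]

theorem exists_borel {κ L : Type} [Field κ] [Field L] [Algebra κ L] {N : ℕ} (u w : Fin N → L) :
    ∃ (L' : Type) (_ : Field L') (_ : Algebra κ L') (_ : Algebra L L') (_ : IsScalarTower κ L L')
      (ν lam μ : L'),
      BSt κ (ν • (fun i => algebraMap L L' (u i)))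
        (lam • (fun i => algebraMap L L' (w i)) + μ • (fun i => algebraMap L L' (u i))) ∧
      Sp κ (Sum.elim (ν • (fun i => algebraMap L L' (u i)))
        (lam • (fun i => algebraMap L L' (w i)) + μ • (fun i => algebraMap L L' (u i))))
        (Sum.elim u w) := by
  let A := MvPolynomial (Fin 3) L
  let L' := FractionRing A
  have hL : ∀ a : L, algebraMap L L' a = algebraMap A L' (C a) := fun a =>
    IsScalarTower.algebraMap_apply L A L' a
  -- the value of `p` at the generic point, as a polynomial
  have hP : ∀ p : MvPolynomial (Fin N ⊕ Fin N) κ,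
      aeval (Sum.elim ((algebraMap A L' (X 0)) • (fun i => algebraMap L L' (u i)))
        ((algebraMap A L' (X 2)) • (fun i => algebraMap L L' (w i)) +
          (algebraMap A L' (X 1)) • (fun i => algebraMap L L' (u i)))) p = 0 →
      aeval (bPt u w) p = 0 := by
    intro p hp
    apply IsFractionRing.injective A L'
    rw [map_zero, ← hp]
    refine hom_aeval (algebraMap A L') ?_ _ _ ?_ p
    · intro a
      exact (IsScalarTower.algebraMap_apply κ A L' a).symm
    · rintro (i | i)
      · show algebraMap A L' (X 0 * C (u i)) = algebraMap A L' (X 0) * algebraMap L L' (u i)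
        rw [hL, map_mul]
      · show algebraMap A L' (X 2 * C (w i) + X 1 * C (u i)) =
          algebraMap A L' (X 2) * algebraMap L L' (w i) +
          algebraMap A L' (X 1) * algebraMap L L' (u i)
        rw [hL, hL, map_add, map_mul, map_mul]
  refine ⟨L', inferInstance, inferInstance, inferInstance, inferInstance, algebraMap A L' (X 0),
    algebraMap A L' (X 2), algebraMap A L' (X 1), ?_, ?_⟩
  · intro M _ _ u' w' ν lam μ hs p hp
    have h0 := hP p hp
    -- the polynomial at the product
    have h1 : aeval (bPt ((algebraMap A L' (X 0)) • (fun i => algebraMap L L' (u i)))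
        ((algebraMap A L' (X 2)) • (fun i => algebraMap L L' (w i)) +
          (algebraMap A L' (X 1)) • (fun i => algebraMap L L' (u i)))) p = 0 := by
      let ψ : A →+* MvPolynomial (Fin 3) L' :=
        eval₂Hom (C.comp (algebraMap L L')) (![X 0 * C (algebraMap A L' (X 0)),
          X 2 * C (algebraMap A L' (X 1)) + X 1 * C (algebraMap A L' (X 0)),
          X 2 * C (algebraMap A L' (X 2))] : Fin 3 → MvPolynomial (Fin 3) L')
      have hψC : ∀ a, ψ (C a) = C (algebraMap L L' a) := fun a => eval₂Hom_C _ _ _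
      have hψX : ∀ i, ψ (X i) = (![X 0 * C (algebraMap A L' (X 0)),
          X 2 * C (algebraMap A L' (X 1)) + X 1 * C (algebraMap A L' (X 0)),
          X 2 * C (algebraMap A L' (X 2))] : Fin 3 → MvPolynomial (Fin 3) L') i :=
        fun i => eval₂Hom_X' _ _ _
      have h2 := congrArg ψ h0
      rw [map_zero] at h2
      rw [← h2]
      symm
      refine hom_aeval ψ ?_ _ _ ?_ p
      · intro a
        rw [IsScalarTower.algebraMap_apply κ L A]
        show ψ (C (algebraMap κ L a)) = C (algebraMap κ L' a)
        rw [hψC, ← IsScalarTower.algebraMap_apply κ L L']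
      · rintro (i | i)
        · show ψ (X 0 * C (u i)) = X 0 * C (algebraMap A L' (X 0) * algebraMap L L' (u i))
          rw [map_mul, hψC, hψX, C_mul]
          show X 0 * C (algebraMap A L' (X 0)) * _ = _
          ring
        · show ψ (X 2 * C (w i) + X 1 * C (u i)) =
            X 2 * C (algebraMap A L' (X 2) * algebraMap L L' (w i) +
              algebraMap A L' (X 1) * algebraMap L L' (u i)) +
            X 1 * C (algebraMap A L' (X 0) * algebraMap L L' (u i))
          rw [map_add, map_mul, map_mul, hψC, hψC, hψX, hψX, C_add, C_mul, C_mul, C_mul]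
          show X 2 * C (algebraMap A L' (X 2)) * _ +
            (X 2 * C (algebraMap A L' (X 1)) + X 1 * C (algebraMap A L' (X 0))) * _ = _
          ring
    rw [← map_bHat] at h1
    have h4 : MvPolynomial.map ((aeval (Sum.elim u' w') :
        MvPolynomial (Fin N ⊕ Fin N) κ →ₐ[κ] M) : MvPolynomial (Fin N ⊕ Fin N) κ →+* M)
        (bHat p) = 0 := by
      ext e
      rw [coeff_map, coeff_zero]
      refine hs _ ?_
      have h5 := congrArg (coeff e) h1
      rw [coeff_map, coeff_zero] at h5
      exact h5
    rw [map_bHat] at h4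
    have h7 := aeval_bPt (κ := κ) u' w' ![ν, μ, lam] p
    rw [h4, map_zero] at h7
    exact h7.symm
  · intro p hp
    have h0 := hP p hp
    have h2 := aeval_bPt (κ := κ) u w ![1, 0, 1] p
    have h3 : Sum.elim ((![1, 0, 1] : Fin 3 → L) 0 • u)
        ((![1, 0, 1] : Fin 3 → L) 2 • w + (![1, 0, 1] : Fin 3 → L) 1 • u) = Sum.elim u w := by
      simp
    rw [h3, h0, map_zero] at h2
    exact h2.symm

/-- base change of points along a field extension -/
theorem Sp.map {k L M : Type} [Field k] [Field L] [Algebra k L] [Field M] [Algebra k M]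
    [Algebra L M] [IsScalarTower k L M] {ι : Type} (x : ι → L) :
    Sp k x (fun i => algebraMap L M (x i)) ∧ Sp k (fun i => algebraMap L M (x i)) x := by
  have h : ∀ p : MvPolynomial ι k, aeval (fun i => algebraMap L M (x i)) p =
      algebraMap L M (aeval x p) := fun p => aeval_algebraMap_apply M x p
  constructor
  · intro p hp
    rw [h, hp, map_zero]
  · intro p hp
    rw [h] at hp
    exact (algebraMap L M).injective (by rw [hp, map_zero])

end Pool.Agent.Lib.MP_1e3e9c_agL
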